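import Pool.Agent.Lib.MP_78c6b1_al.CA.EEDefs

/-! Scalar form of the arrays for the head `3, 2, 2, …`.  With `f i`, `h i` the lanes of `(1, 0)` and
`(0, 1)`: `⁅f i, f j⁆ = a f + c h`, `⁅f i, h j⁆ = s f + r h`, `⁅h i, h j⁆ = p f + e h`. -/

namespace Pool.Agent.P78.Beta

variable {K : Type} [Field K]

/-- Both lanes exist from degree one. -/
abbrev A1 (β : Bil K) : Prop := Arr (fun s _ => 1 ≤ s) β

/-- `f`-component of `⁅f i, f j⁆`. -/
def a (β : Bil K) (i j : ℕ) : K := (β i j (1, 0) (1, 0)).1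
/-- `h`-component of `⁅f i, f j⁆`. -/
def c (β : Bil K) (i j : ℕ) : K := (β i j (1, 0) (1, 0)).2
/-- `f`-component of `⁅f i, h j⁆`. -/
def s (β : Bil K) (i j : ℕ) : K := (β i j (1, 0) (0, 1)).1
/-- `h`-component of `⁅f i, h j⁆`. -/
def r (β : Bil K) (i j : ℕ) : K := (β i j (1, 0) (0, 1)).2
/-- `f`-component of `⁅h i, h j⁆`. -/
def p (β : Bil K) (i j : ℕ) : K := (β i j (0, 1) (0, 1)).1
/-- `h`-component of `⁅h i, h j⁆`. -/
def e (β : Bil K) (i j : ℕ) : K := (β i j (0, 1) (0, 1)).2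

/-- The scalar identities. -/
structure Six (a c s r p e : ℕ → ℕ → K) : Prop where
  Pa : ∀ i j, 1 ≤ i → 1 ≤ j → a i j = a (i + 1) j + a i (j + 1)
  Pc : ∀ i j, 1 ≤ i → 1 ≤ j → c i j = c (i + 1) j + c i (j + 1)
  Ps : ∀ i j, 1 ≤ i → 1 ≤ j → s i j = s (i + 1) j + s i (j + 1)
  Pr : ∀ i j, 1 ≤ i → 1 ≤ j → r i j = r (i + 1) j + r i (j + 1)
  Pp : ∀ i j, 1 ≤ i → 1 ≤ j → p i j = p (i + 1) j + p i (j + 1)
  Pe : ∀ i j, 1 ≤ i → 1 ≤ j → e i j = e (i + 1) j + e i (j + 1)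
  Aa : ∀ i j, 1 ≤ i → 1 ≤ j → a j i = - a i j
  Ac : ∀ i j, 1 ≤ i → 1 ≤ j → c j i = - c i j
  Ap : ∀ i j, 1 ≤ i → 1 ≤ j → p j i = - p i j
  Ae : ∀ i j, 1 ≤ i → 1 ≤ j → e j i = - e i j
  fffF : ∀ i j k, 1 ≤ i → 1 ≤ j → 1 ≤ k →
    a j k * a i (j + k) + c j k * s i (j + k) - a i k * a j (i + k) - c i k * s j (i + k) =
      - a i j * a k (i + j) - c i j * s k (i + j)
  fffH : ∀ i j k, 1 ≤ i → 1 ≤ j → 1 ≤ k →
    a j k * c i (j + k) + c j k * r i (j + k) - a i k * c j (i + k) - c i k * r j (i + k) =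
      - a i j * c k (i + j) - c i j * r k (i + j)
  ffhF : ∀ i j k, 1 ≤ i → 1 ≤ j → 1 ≤ k →
    s j k * a i (j + k) + r j k * s i (j + k) - s i k * a j (i + k) - r i k * s j (i + k) =
      a i j * s (i + j) k + c i j * p (i + j) k
  ffhH : ∀ i j k, 1 ≤ i → 1 ≤ j → 1 ≤ k →
    s j k * c i (j + k) + r j k * r i (j + k) - s i k * c j (i + k) - r i k * r j (i + k) =
      a i j * r (i + j) k + c i j * e (i + j) k
  fhhF : ∀ i j k, 1 ≤ i → 1 ≤ j → 1 ≤ k →
    p j k * a i (j + k) + e j k * s i (j + k) =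
      s i j * s (i + j) k + r i j * p (i + j) k - s i k * s (i + k) j - r i k * p (i + k) j
  fhhH : ∀ i j k, 1 ≤ i → 1 ≤ j → 1 ≤ k →
    p j k * c i (j + k) + e j k * r i (j + k) =
      s i j * r (i + j) k + r i j * e (i + j) k - s i k * r (i + k) j - r i k * e (i + k) j
  hhhF : ∀ i j k, 1 ≤ i → 1 ≤ j → 1 ≤ k →
    - p j k * s (j + k) i + e j k * p i (j + k) + p i k * s (i + k) j - e i k * p j (i + k) =
      p i j * s (i + j) k + e i j * p (i + j) k
  hhhH : ∀ i j k, 1 ≤ i → 1 ≤ j → 1 ≤ k →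
    - p j k * r (j + k) i + e j k * e i (j + k) + p i k * r (i + k) j - e i k * e j (i + k) =
      p i j * r (i + j) k + e i j * e (i + j) k

lemma app_right (L : (K × K) →ₗ[K] (K × K)) (v : K × K) :
    L v = v.1 • L (1, 0) + v.2 • L (0, 1) := by
  rw [← map_smul, ← map_smul, ← map_add]; congr 1; ext <;> simp

lemma app_left (B : (K × K) →ₗ[K] (K × K) →ₗ[K] (K × K)) (u v : K × K) :
    B u v = u.1 • B (1, 0) v + u.2 • B (0, 1) v := app_right (B.flip v) u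

theorem six {β : Bil K} (h : A1 β) : Six (a β) (c β) (s β) (r β) (p β) (e β) := by
  have D := fun i j u v hi hj => h.der i j u v hi hj
  have N := fun i j u v hi hj => h.anti i j u v hi hj
  have J : ∀ i j k u v w, 1 ≤ i → 1 ≤ j → 1 ≤ k →
      (β i j u v).1 • β (i + j) k (1, 0) w + (β i j u v).2 • β (i + j) k (0, 1) w =
      ((β j k v w).1 • β i (j + k) u (1, 0) + (β j k v w).2 • β i (j + k) u (0, 1)) -
      ((β i k u w).1 • β j (i + k) v (1, 0) + (β i k u w).2 • β j (i + k) v (0, 1)) :=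
    fun i j k u v w hi hj hk => by
      rw [← app_left, ← app_right, ← app_right]; exact h.jac i j k u v w hi hj hk
  refine ⟨fun i j hi hj => congrArg Prod.fst (D i j _ _ hi hj),
    fun i j hi hj => congrArg Prod.snd (D i j _ _ hi hj),
    fun i j hi hj => congrArg Prod.fst (D i j _ _ hi hj),
    fun i j hi hj => congrArg Prod.snd (D i j _ _ hi hj),
    fun i j hi hj => congrArg Prod.fst (D i j _ _ hi hj),
    fun i j hi hj => congrArg Prod.snd (D i j _ _ hi hj),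
    fun i j hi hj => congrArg Prod.fst (N i j _ _ hi hj),
    fun i j hi hj => congrArg Prod.snd (N i j _ _ hi hj),
    fun i j hi hj => congrArg Prod.fst (N i j _ _ hi hj),
    fun i j hi hj => congrArg Prod.snd (N i j _ _ hi hj), ?_, ?_, ?_, ?_, ?_, ?_, ?_, ?_⟩ <;>
    intro i j k hi hj hk
  · have h1 := congrArg Prod.fst (J i j k (1, 0) (1, 0) (1, 0) hi hj hk)
    rw [N k (i + j) (1, 0) (1, 0) hk (by omega), N k (i + j) (1, 0) (0, 1) hk (by omega)] at h1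
    simp only [a, c, s, Prod.fst_add, Prod.fst_sub, Prod.smul_fst, Prod.fst_neg, smul_eq_mul] at h1 ⊢
    linear_combination -h1
  · have h1 := congrArg Prod.snd (J i j k (1, 0) (1, 0) (1, 0) hi hj hk)
    rw [N k (i + j) (1, 0) (1, 0) hk (by omega), N k (i + j) (1, 0) (0, 1) hk (by omega)] at h1
    simp only [a, c, r, Prod.snd_add, Prod.snd_sub, Prod.smul_snd, Prod.snd_neg, smul_eq_mul] at h1 ⊢
    linear_combination -h1
  · have h1 := congrArg Prod.fst (J i j k (1, 0) (1, 0) (0, 1) hi hj hk)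
    simp only [a, c, s, r, p, Prod.fst_add, Prod.fst_sub, Prod.smul_fst, smul_eq_mul] at h1 ⊢
    linear_combination -h1
  · have h1 := congrArg Prod.snd (J i j k (1, 0) (1, 0) (0, 1) hi hj hk)
    simp only [a, c, s, r, e, Prod.snd_add, Prod.snd_sub, Prod.smul_snd, smul_eq_mul] at h1 ⊢
    linear_combination -h1
  · have h1 := congrArg Prod.fst (J i j k (1, 0) (0, 1) (0, 1) hi hj hk)
    rw [N (i + k) j (1, 0) (0, 1) (by omega) hj, N (i + k) j (0, 1) (0, 1) (by omega) hj] at h1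
    simp only [a, s, r, p, e, Prod.fst_add, Prod.fst_sub, Prod.smul_fst, Prod.fst_neg,
      smul_eq_mul] at h1 ⊢
    linear_combination -h1
  · have h1 := congrArg Prod.snd (J i j k (1, 0) (0, 1) (0, 1) hi hj hk)
    rw [N (i + k) j (1, 0) (0, 1) (by omega) hj, N (i + k) j (0, 1) (0, 1) (by omega) hj] at h1
    simp only [c, s, r, p, e, Prod.snd_add, Prod.snd_sub, Prod.smul_snd, Prod.snd_neg,
      smul_eq_mul] at h1 ⊢
    linear_combination -h1
  · have h1 := congrArg Prod.fst (J i j k (0, 1) (0, 1) (0, 1) hi hj hk)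
    rw [N (j + k) i (1, 0) (0, 1) (by omega) hi, N (i + k) j (1, 0) (0, 1) (by omega) hj] at h1
    simp only [s, p, e, Prod.fst_add, Prod.fst_sub, Prod.smul_fst, Prod.fst_neg, smul_eq_mul] at h1 ⊢
    linear_combination -h1
  · have h1 := congrArg Prod.snd (J i j k (0, 1) (0, 1) (0, 1) hi hj hk)
    rw [N (j + k) i (1, 0) (0, 1) (by omega) hi, N (i + k) j (1, 0) (0, 1) (by omega) hj] at h1
    simp only [r, p, e, Prod.snd_add, Prod.snd_sub, Prod.smul_snd, Prod.snd_neg, smul_eq_mul] at h1 ⊢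
    linear_combination -h1

/-- Change of basis. -/
def conj (g : (K × K) ≃ₗ[K] (K × K)) (β : Bil K) : Bil K := fun i j =>
  ((β i j).compl₁₂ g.toLinearMap g.toLinearMap).compr₂ g.symm.toLinearMap

@[simp] lemma conj_apply (g : (K × K) ≃ₗ[K] (K × K)) (β : Bil K) (i j : ℕ) (u v : K × K) :
    conj g β i j u v = g.symm (β i j (g u) (g v)) := rfl

lemma A1.conj {β : Bil K} (h : A1 β) (g : (K × K) ≃ₗ[K] (K × K)) : A1 (conj g β) :=
  ⟨fun i j u v hi hj => by simp [h.der i j _ _ hi hj], fun i j u v hi hj => by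
    simp [h.anti i j _ _ hi hj], fun i j k u v w hi hj hk => by simp [h.jac i j k _ _ _ hi hj hk]⟩

/-- The shear `f ↦ f + t h`, `h ↦ h`. -/
def shr (t : K) : (K × K) ≃ₗ[K] (K × K) where
  toFun u := (u.1, u.2 + t * u.1)
  invFun u := (u.1, u.2 - t * u.1)
  map_add' u v := by ext <;> simp; ring
  map_smul' m u := by ext <;> simp; ring
  left_inv u := by ext <;> simp
  right_inv u := by ext <;> simp

/-- The arrays after replacing `f` by `f + t h`. -/
theorem A1.shear {β : Bil K} (h : A1 β) (t : K) : ∃ β' : Bil K, A1 β' ∧ ∀ i j, 1 ≤ i → 1 ≤ j →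
    a β' i j = a β i j + t * s β i j - t * s β j i + t ^ 2 * p β i j ∧
    c β' i j = c β i j + t * r β i j - t * r β j i + t ^ 2 * e β i j - t * a β' i j ∧
    s β' i j = s β i j + t * p β i j ∧ r β' i j = r β i j + t * e β i j - t * s β' i j ∧
    p β' i j = p β i j ∧ e β' i j = e β i j - t * p β i j := by
  refine ⟨Beta.conj (shr t) β, h.conj _, fun i j hi hj => ?_⟩
  have h1 : shr t ((1, 0) : K × K) = (1, 0) + t • (0, 1) := by ext <;> simp [shr]
  have h2 : shr t ((0, 1) : K × K) = (0, 1) := by ext <;> simp [shr]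
  have h3 : ∀ u : K × K, (shr t).symm u = (u.1, u.2 - t * u.1) := fun u => rfl
  simp only [a, c, s, r, p, e, conj_apply, h1, h2, h3, map_add, map_smul, LinearMap.add_apply,
    LinearMap.smul_apply, h.anti j i (1, 0) (0, 1) hj hi, Prod.fst_add, Prod.snd_add, Prod.smul_fst,
    Prod.smul_snd, Prod.fst_neg, Prod.snd_neg, smul_eq_mul]
  refine ⟨?_, ?_, ?_, ?_, ?_, ?_⟩ <;> first | trivial | ring

/-- In degrees at most three the lane `h` is an abelian ideal and `f 1` commutes with `f 2` modulo it. -/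
structure Low (a s p e : ℕ → ℕ → K) : Prop where
  a12 : a 1 2 = 0
  s11 : s 1 1 = 0
  s12 : s 1 2 = 0
  p12 : p 1 2 = 0
  e12 : e 1 2 = 0

/-- The lane `h` is an abelian ideal. -/
def Flat (s p e : ℕ → ℕ → K) : Prop := ∀ i j, 1 ≤ i → 1 ≤ j → s i j = 0 ∧ p i j = 0 ∧ e i j = 0

/-- Degrees two and three commute. -/
def Com (a c s r p e : ℕ → ℕ → K) : Prop :=
  a 2 3 = 0 ∧ c 2 3 = 0 ∧ s 2 3 = 0 ∧ r 2 3 = 0 ∧ s 3 2 = 0 ∧ r 3 2 = 0 ∧ p 2 3 = 0 ∧ e 2 3 = 0

/-- Harmonic action. -/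
def BetH : Prop :=
  ∀ (K : Type) [Field K] [CharZero K] (a c s r p e : ℕ → ℕ → K), Six a c s r p e → Low a s p e →
    r 1 1 ≠ 0 → r 1 2 ≠ 0 → r 1 1 ≠ r 1 2 → Flat s p e

/-- Spike in degree one. -/
def BetE : Prop :=
  ∀ (K : Type) [Field K] [CharZero K] (a c s r p e : ℕ → ℕ → K), Six a c s r p e → Low a s p e →
    r 1 1 ≠ 0 → r 1 2 = 0 → Flat s p e

/-- Spike in degree two. -/
def Bet0 : Prop :=
  ∀ (K : Type) [Field K] [CharZero K] (a c s r p e : ℕ → ℕ → K), Six a c s r p e → Low a s p e →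
    r 1 1 = 0 → r 1 2 ≠ 0 → c 1 2 = 0 → Flat s p e

/-- Constant action. -/
def BetC : Prop :=
  ∀ (K : Type) [Field K] [CharZero K] (a c s r p e : ℕ → ℕ → K), Six a c s r p e → Low a s p e →
    r 1 1 ≠ 0 → r 1 2 = r 1 1 → c 1 2 = 0 → Com a c s r p e

/-- The etale head. -/
def BetT : Prop :=
  ∀ (K : Type) [Field K] [CharZero K] (a c s r p e : ℕ → ℕ → K), Six a c s r p e →
    a 1 2 = 0 → c 1 2 = 0 → s 1 1 = 0 → s 1 2 = 0 → r 1 1 ≠ 0 → r 1 2 = 0 → p 1 2 ≠ 0 → e 1 2 = 0 →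
    Com a c s r p e

/-- The lane `h` is central and contains all brackets up to level `m`. -/
def Z (a s r p e : ℕ → ℕ → K) (m : ℕ) : Prop := ∀ i j, 1 ≤ i → 1 ≤ j → i + j ≤ m →
  a i j = 0 ∧ s i j = 0 ∧ r i j = 0 ∧ p i j = 0 ∧ e i j = 0

/-- The nilpotent head, first deviation in the direction `f`. -/
def BetIc : Prop :=
  ∀ (K : Type) [Field K] [CharZero K] (a c s r p e : ℕ → ℕ → K) (m : ℕ), Six a c s r p e →
    3 ≤ m → Z a s r p e m → c 1 2 ≠ 0 → (5 ≤ m → c 2 3 ≠ 0) → r 1 m = 0 → s 1 m = 0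

/-- The nilpotent head, the other deviations. -/
def BetIb : Prop :=
  ∀ (K : Type) [Field K] [CharZero K] (a c s r p e : ℕ → ℕ → K) (m : ℕ), Six a c s r p e →
    3 ≤ m → Z a s r p e m → c 1 2 ≠ 0 → s 1 m = 0 → Z a s r p e (m + 1)

end Pool.Agent.P78.Beta
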