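import Pool.Agent.Lib.MP_78c6b1_al.Beta.Defs

/-! The head `3, 2, 2, …`: spike in degree one. -/

namespace Pool.Agent.P78.Beta

namespace BE

variable {K : Type} [Field K]

/-- Pascal arrays. -/
def Pas (X : ℕ → ℕ → K) : Prop := ∀ i j, 1 ≤ i → 1 ≤ j → X i j = X (i + 1) j + X i (j + 1)

/-- The values on the level `n`. -/
def Lev (X : ℕ → ℕ → K) (n : ℕ) (f : ℕ → K) : Prop :=
  ∀ i j, 1 ≤ i → 1 ≤ j → i + j = n → X i j = f i

theorem lev2 {X : ℕ → ℕ → K} (P : Pas X) {n : ℕ} {k : K} (h : Lev X n fun i => (-1) ^ i * k) :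
    ∃ k', Lev X (n + 1) fun i => (-1) ^ i * (k' - i * k) := by
  refine ⟨k - X 1 n, fun i => ?_⟩
  induction i with
  | zero => intro j hi; omega
  | succ i ih =>
    intro j _ hj hn
    rcases Nat.eq_zero_or_pos i with rfl | hi
    · obtain rfl : j = n := by omega
      simp
    · have h1 := P i j hi hj
      have h2 := h i j hi hj (by omega)
      have h3 := ih (j + 1) hi (by omega) (by omega)
      simp only at h2 h3 ⊢
      push_cast
      linear_combination h2 - h1 - h3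

theorem lev1 {X : ℕ → ℕ → K} (P : Pas X) {n : ℕ} (h : Lev X n fun _ => 0) :
    ∃ k, Lev X (n + 1) fun i => (-1) ^ i * k := by
  obtain ⟨k, hk⟩ := lev2 P (n := n) (k := 0) fun i j a b c => by rw [h i j a b c]; simp
  exact ⟨k, fun i j a b c => by rw [hk i j a b c]; simp⟩

theorem diag [CharZero K] {X : ℕ → ℕ → K} (A : ∀ i j, 1 ≤ i → 1 ≤ j → X j i = - X i j) {t : ℕ}
    (ht : 1 ≤ t) : X t t = 0 := by
  have h2 : (2 : K) * X t t = 0 := by linear_combination A t t ht ht
  exact (mul_eq_zero.1 h2).resolve_left two_ne_zero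

theorem sgn {t : ℕ} {x : K} (h : (-1 : K) ^ t * x = 0) : x = 0 :=
  (mul_eq_zero.1 h).resolve_left (pow_ne_zero _ (neg_ne_zero.2 one_ne_zero))

theorem lev_zero {X : ℕ → ℕ → K} {n : ℕ} {k : K} (h : Lev X n fun i => (-1) ^ i * k)
    (hk : k = 0) : Lev X n fun _ => 0 := fun i j a b c => by rw [h i j a b c, hk]; simp

theorem lev_even [CharZero K] {X : ℕ → ℕ → K} (P : Pas X)
    (A : ∀ i j, 1 ≤ i → 1 ≤ j → X j i = - X i j) {n t : ℕ} (ht : 1 ≤ t) (hn : t + t = n + 1)
    (h : Lev X n fun _ => 0) : Lev X (n + 1) fun _ => 0 := by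
  obtain ⟨k, hk⟩ := lev1 P h
  exact lev_zero hk (sgn ((hk t t ht ht hn).symm.trans (diag A ht)))

/-- The deviation of `r` from its regular part. -/
def dev (r : ℕ → ℕ → K) (i j : ℕ) : K := r i j - if j = 1 then r 1 1 else 0

theorem dev_one (r : ℕ → ℕ → K) (i : ℕ) : r i 1 = dev r i 1 + r 1 1 := by simp [dev]

theorem dev_two (r : ℕ → ℕ → K) (i : ℕ) {j : ℕ} (hj : 2 ≤ j) : r i j = dev r i j := by
  have : j ≠ 1 := by omega
  simp [dev, this]

theorem pas_dev {r : ℕ → ℕ → K} (P : Pas r) : Pas (dev r) := fun i j hi hj => by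
  have h1 : j + 1 ≠ 1 := by omega
  simp only [dev, if_neg h1]
  linear_combination P i j hi hj

/-- The invariant. -/
def Inv (a s r p e : ℕ → ℕ → K) (m : ℕ) : Prop := ∀ i j, 1 ≤ i → 1 ≤ j → i + j ≤ m →
  a i j = 0 ∧ s i j = 0 ∧ dev r i j = 0 ∧ p i j = 0 ∧ e i j = 0

variable [CharZero K] {a c s r p e : ℕ → ℕ → K}

theorem base (h : Six a c s r p e) (l : Low a s p e) (h2 : r 1 2 = 0) : Inv a s r p e 3 := by
  intro i j hi hj hij
  have hc : (i = 1 ∧ j = 1) ∨ (i = 1 ∧ j = 2) ∨ (i = 2 ∧ j = 1) := by omega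
  rcases hc with ⟨rfl, rfl⟩ | ⟨rfl, rfl⟩ | ⟨rfl, rfl⟩
  · exact ⟨diag h.Aa le_rfl, l.s11, by simp [dev], diag h.Ap le_rfl, diag h.Ae le_rfl⟩
  · exact ⟨l.a12, l.s12, by simp [dev, h2], l.p12, l.e12⟩
  · refine ⟨by rw [h.Aa 1 2 le_rfl one_le_two, l.a12, neg_zero], ?_, ?_,
      by rw [h.Ap 1 2 le_rfl one_le_two, l.p12, neg_zero],
      by rw [h.Ae 1 2 le_rfl one_le_two, l.e12, neg_zero]⟩
    · linear_combination l.s11 - l.s12 - h.Ps 1 1 le_rfl le_rfl
    · simp only [dev, if_true]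
      linear_combination -h2 - h.Pr 1 1 le_rfl le_rfl

omit [CharZero K] in
theorem extend {m : ℕ} (I : Inv a s r p e m) (ha : Lev a (m + 1) fun _ => 0)
    (hs : Lev s (m + 1) fun _ => 0) (hr : Lev (dev r) (m + 1) fun _ => 0)
    (hp : Lev p (m + 1) fun _ => 0) (he : Lev e (m + 1) fun _ => 0) : Inv a s r p e (m + 1) := by
  intro i j hi hj hij
  rcases Nat.lt_or_ge m (i + j) with h | h
  · have e1 : i + j = m + 1 := by omega
    exact ⟨ha i j hi hj e1, hs i j hi hj e1, hr i j hi hj e1, hp i j hi hj e1, he i j hi hj e1⟩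
  · exact I i j hi hj h

theorem step_even (h : Six a c s r p e) (h1 : r 1 1 ≠ 0) (u : ℕ) (I : Inv a s r p e (2 * u + 3)) :
    Inv a s r p e (2 * u + 3 + 1) := by
  have sg : ∀ b, (-1 : K) ^ (2 * u + b) = (-1) ^ b := fun b => by rw [pow_add, pow_mul]; simp
  have ha := lev_even (t := u + 2) h.Pa h.Aa (by omega) (by omega)
    (fun i j x y z => (I i j x y z.le).1 : Lev a (2 * u + 3) fun _ => 0)
  have hp := lev_even (t := u + 2) h.Pp h.Ap (by omega) (by omega)
    (fun i j x y z => (I i j x y z.le).2.2.2.1 : Lev p (2 * u + 3) fun _ => 0)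
  have he := lev_even (t := u + 2) h.Pe h.Ae (by omega) (by omega)
    (fun i j x y z => (I i j x y z.le).2.2.2.2 : Lev e (2 * u + 3) fun _ => 0)
  obtain ⟨C, hC⟩ := lev1 h.Ps (fun i j x y z => (I i j x y z.le).2.1 : Lev s (2 * u + 3) fun _ => 0)
  obtain ⟨B, hB⟩ := lev1 (pas_dev h.Pr)
    (fun i j x y z => (I i j x y z.le).2.2.1 : Lev (dev r) (2 * u + 3) fun _ => 0)
  obtain ⟨-, s1, r1, -, -⟩ := I (2 * u + 2) 1 (by omega) le_rfl (by omega)
  obtain ⟨a2, -, -, -, -⟩ := I 1 (2 * u + 2) le_rfl (by omega) (by omega)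
  obtain ⟨-, s3, -, -, -⟩ := I 1 1 le_rfl le_rfl (by omega)
  have jF := h.ffhF 1 (2 * u + 2) 1 le_rfl (by omega) le_rfl
  have jH := h.ffhH 1 (2 * u + 2) 1 le_rfl (by omega) le_rfl
  rw [s1, s3, a2, dev_one r (2 * u + 2), r1] at jF jH
  rw [hC 1 _ le_rfl (by omega) (by omega), hC (2 * u + 2) _ (by omega) (by omega) (by omega),
    hp (1 + (2 * u + 2)) 1 (by omega) le_rfl (by omega)] at jF
  simp only [sg] at jF
  rw [dev_two r 1 (j := 2 * u + 2 + 1) (by omega), dev_two r (2 * u + 2) (j := 1 + 1) le_rfl,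
    hB 1 _ le_rfl (by omega) (by omega), hB (2 * u + 2) _ (by omega) (by omega) (by omega),
    he (1 + (2 * u + 2)) 1 (by omega) le_rfl (by omega)] at jH
  simp only [sg] at jH
  have h2 : (2 : K) * r 1 1 ≠ 0 := mul_ne_zero two_ne_zero h1
  have C0 : C = 0 := (mul_eq_zero.1 (by linear_combination -jF : 2 * r 1 1 * C = 0)).resolve_left h2
  have B0 : B = 0 := (mul_eq_zero.1 (by linear_combination -jH : 2 * r 1 1 * B = 0)).resolve_left h2
  exact extend I ha (lev_zero hC C0) (lev_zero hB B0) hp he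

theorem alg {r1 A B C B' C' A' N : K} (h1 : r1 ≠ 0) (hN : 2 * N + 5 ≠ 0) (hN' : N + 2 ≠ 0)
    (hN'' : 2 * N + 3 ≠ 0) (hA : A' = (N + 3) * A)
    (x : C * ((2 * N + 5) * C - C') = 0)
    (yF : r1 * (2 * C' - (2 * N + 5) * C) = A * ((2 * N + 5) * C - C'))
    (yH : r1 * (2 * B' - (2 * N + 5) * B) = A * ((2 * N + 5) * B - B' + r1))
    (zF : C = 0 → (2 * r1 + B + A) * C' = 0)
    (zH : C = 0 → (r1 + B) * (B' - B) + r1 * (B' - (2 * N + 4) * B) =
      A * ((2 * N + 5) * B - B' + r1))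
    (f : C = 0 → C' = 0 → A * (A' - A) = 0) : A = 0 ∧ C = 0 ∧ B = 0 := by
  have C0 : C = 0 := by
    by_contra hC
    have h2 := (mul_eq_zero.1 x).resolve_left hC
    have h3 : r1 * ((2 * N + 5) * C) = 0 := by linear_combination yF + (A + 2 * r1) * h2
    exact mul_ne_zero h1 (mul_ne_zero hN hC) h3
  have C1 : C' = 0 := by
    by_contra hC
    have h2 : (2 * r1 + A) * C' = 0 := by rw [C0] at yF; linear_combination yF
    have h3 := (mul_eq_zero.1 h2).resolve_right hC
    have h4 := (mul_eq_zero.1 (zF C0)).resolve_right hC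
    have h5 : B = 0 := by linear_combination h4 - h3
    have h6 : 2 * (r1 * r1) = 0 := by
      rw [h5] at yH
      linear_combination yH + (r1 - B') * h3
    exact mul_ne_zero two_ne_zero (mul_ne_zero h1 h1) h6
  have A0 : A = 0 := by
    have h2 : (N + 2) * (A * A) = 0 := by linear_combination f C0 C1 - A * hA
    exact mul_self_eq_zero.1 ((mul_eq_zero.1 h2).resolve_left hN')
  refine ⟨A0, C0, ?_⟩
  have h2 : 2 * B' - (2 * N + 5) * B = 0 := by
    rw [A0, zero_mul] at yH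
    exact (mul_eq_zero.1 yH).resolve_left h1
  have h3 : (2 * N + 3) * (B * B) = 0 := by linear_combination 2 * zH C0 - 2 * yH - B * h2
  exact mul_self_eq_zero.1 ((mul_eq_zero.1 h3).resolve_left hN'')

theorem step_odd (h : Six a c s r p e) (h1 : r 1 1 ≠ 0) (u : ℕ) (I : Inv a s r p e (2 * u + 4)) :
    Inv a s r p e (2 * u + 4 + 1) := by
  have sg : ∀ b, (-1 : K) ^ (2 * u + b) = (-1) ^ b := fun b => by rw [pow_add, pow_mul]; simp
  obtain ⟨A, hA⟩ := lev1 h.Pa (fun i j x y z => (I i j x y z.le).1 : Lev a (2 * u + 4) fun _ => 0)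
  obtain ⟨C, hC⟩ := lev1 h.Ps (fun i j x y z => (I i j x y z.le).2.1 : Lev s (2 * u + 4) fun _ => 0)
  obtain ⟨B, hB⟩ := lev1 (pas_dev h.Pr)
    (fun i j x y z => (I i j x y z.le).2.2.1 : Lev (dev r) (2 * u + 4) fun _ => 0)
  obtain ⟨F, hF⟩ := lev1 h.Pp
    (fun i j x y z => (I i j x y z.le).2.2.2.1 : Lev p (2 * u + 4) fun _ => 0)
  obtain ⟨E, hE⟩ := lev1 h.Pe
    (fun i j x y z => (I i j x y z.le).2.2.2.2 : Lev e (2 * u + 4) fun _ => 0)
  obtain ⟨-, s11, -, -, -⟩ := I 1 1 le_rfl le_rfl (by omega)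
  obtain ⟨-, s21, r21, -, -⟩ := I 2 1 (by omega) le_rfl (by omega)
  obtain ⟨a12, -, -, -, -⟩ := I 1 2 le_rfl (by omega) (by omega)
  obtain ⟨a1k, s1k, r1k, p1k, e1k⟩ := I 1 (2 * u + 3) le_rfl (by omega) (by omega)
  obtain ⟨-, sk1, rk1, pk1, ek1⟩ := I (2 * u + 3) 1 (by omega) le_rfl (by omega)
  rw [← dev_two r 1 (by omega)] at r1k
  have r21' : r 2 1 = r 1 1 := by rw [dev_one r 2, r21, zero_add]
  have rk1' : r (2 * u + 3) 1 = r 1 1 := by rw [dev_one r (2 * u + 3), rk1, zero_add]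
  have F0 : F = 0 := by
    have j := h.fhhF 1 1 (2 * u + 3) le_rfl le_rfl (by omega)
    rw [p1k, e1k, s11, s1k, r1k, hF (1 + 1) _ (by omega) (by omega) (by omega)] at j
    exact (mul_eq_zero.1 (by linear_combination -j : r 1 1 * F = 0)).resolve_left h1
  have E0 : E = 0 := by
    have j := h.fhhH 1 1 (2 * u + 3) le_rfl le_rfl (by omega)
    rw [p1k, e1k, s11, s1k, r1k, hE (1 + 1) _ (by omega) (by omega) (by omega)] at j
    exact (mul_eq_zero.1 (by linear_combination -j : r 1 1 * E = 0)).resolve_left h1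
  have hp := lev_zero hF F0
  have he := lev_zero hE E0
  have hp' := lev_even (t := u + 3) h.Pp h.Ap (by omega) (by omega) hp
  have he' := lev_even (t := u + 3) h.Pe h.Ae (by omega) (by omega) he
  obtain ⟨A', hA'⟩ := lev2 h.Pa hA
  obtain ⟨C', hC'⟩ := lev2 h.Ps hC
  obtain ⟨B', hB'⟩ := lev2 (pas_dev h.Pr) hB
  have sn1 : s (2 * u + 5) 1 = (2 * u + 5) * C - C' := by
    rw [hC' _ 1 (by omega) le_rfl (by omega)]
    simp only [sg]
    push_cast
    ring
  have rn1 : r (2 * u + 5) 1 = (2 * u + 5) * B - B' + r 1 1 := by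
    rw [dev_one r (2 * u + 5), hB' _ 1 (by omega) le_rfl (by omega)]
    simp only [sg]
    push_cast
    ring
  have pn1 : p (2 * u + 5) 1 = 0 := hp' _ 1 (by omega) le_rfl (by omega)
  have en1 : e (2 * u + 5) 1 = 0 := he' _ 1 (by omega) le_rfl (by omega)
  have e1 : 2 + (2 * u + 3) = 2 * u + 5 := by omega
  have e2 : 1 + (2 * u + 4) = 2 * u + 5 := by omega
  have key := alg (r1 := r 1 1) (A := A) (B := B) (C := C) (B' := B') (C' := C') (A' := A')
    (N := (u : K)) h1 (by exact_mod_cast (by omega : 2 * u + 5 ≠ 0))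
    (by exact_mod_cast (by omega : u + 2 ≠ 0)) (by exact_mod_cast (by omega : 2 * u + 3 ≠ 0))
    ?_ ?_ ?_ ?_ ?_ ?_ ?_
  · exact extend I (lev_zero hA key.1) (lev_zero hC key.2.1) (lev_zero hB key.2.2) hp he
  · have j := sgn ((hA' (u + 3) (u + 3) (by omega) (by omega) (by omega)).symm.trans
      (diag h.Aa (by omega)))
    push_cast at j
    linear_combination j
  · have j := h.fhhF 2 (2 * u + 3) 1 (by omega) (by omega) le_rfl
    rw [pk1, ek1, s21, e1, sn1, pn1, hp' (2 + 1) _ (by omega) (by omega) (by omega),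
      hC 2 (2 * u + 3) (by omega) (by omega) (by omega)] at j
    linear_combination -j
  · have j := h.ffhF 2 (2 * u + 3) 1 (by omega) (by omega) le_rfl
    rw [sk1, s21, rk1', r21', e1, sn1, pn1, hA 2 (2 * u + 3) (by omega) (by omega) (by omega),
      hC' 2 _ (by omega) (by omega) (by omega),
      hC' (2 * u + 3) _ (by omega) (by omega) (by omega)] at j
    simp only [sg] at j
    push_cast at j
    linear_combination j
  · have j := h.ffhH 2 (2 * u + 3) 1 (by omega) (by omega) le_rfl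
    rw [sk1, s21, rk1', r21', e1, rn1, en1, hA 2 (2 * u + 3) (by omega) (by omega) (by omega),
      dev_two r 2 (j := 2 * u + 3 + 1) (by omega), dev_two r (2 * u + 3) (j := 2 + 1) (by omega),
      hB' 2 _ (by omega) (by omega) (by omega),
      hB' (2 * u + 3) _ (by omega) (by omega) (by omega)] at j
    simp only [sg] at j
    push_cast at j
    linear_combination j
  · intro C0
    have j := h.ffhF 1 (2 * u + 4) 1 le_rfl (by omega) le_rfl
    rw [s11, e2, sn1, pn1, hA 1 (2 * u + 4) le_rfl (by omega) (by omega),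
      dev_one r (2 * u + 4), hB (2 * u + 4) 1 (by omega) le_rfl (by omega),
      hC (2 * u + 4) 1 (by omega) le_rfl (by omega),
      hC' 1 _ le_rfl (by omega) (by omega),
      hC' (2 * u + 4) _ (by omega) (by omega) (by omega)] at j
    simp only [sg, C0] at j
    linear_combination -j
  · intro C0
    have j := h.ffhH 1 (2 * u + 4) 1 le_rfl (by omega) le_rfl
    rw [s11, e2, rn1, en1, hA 1 (2 * u + 4) le_rfl (by omega) (by omega),
      dev_one r (2 * u + 4), hB (2 * u + 4) 1 (by omega) le_rfl (by omega),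
      hC (2 * u + 4) 1 (by omega) le_rfl (by omega),
      dev_two r 1 (j := 2 * u + 4 + 1) (by omega), dev_two r (2 * u + 4) (j := 1 + 1) le_rfl,
      hB' 1 _ le_rfl (by omega) (by omega),
      hB' (2 * u + 4) _ (by omega) (by omega) (by omega)] at j
    simp only [sg, C0] at j
    push_cast at j
    linear_combination -j
  · intro C0 C1
    have j := h.fffF 1 2 (2 * u + 3) le_rfl (by omega) (by omega)
    rw [a1k, a12, hA 2 (2 * u + 3) (by omega) (by omega) (by omega),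
      hA' 1 _ le_rfl (by omega) (by omega), hC' 1 _ le_rfl (by omega) (by omega),
      hC' 2 _ (by omega) (by omega) (by omega),
      hC' (2 * u + 3) _ (by omega) (by omega) (by omega)] at j
    simp only [C0, C1] at j
    push_cast at j
    linear_combination -j

end BE

open BE in
theorem betE : BetE := by
  intro K _ _ a c s r p e h l h1 h2
  have key : ∀ u, Inv a s r p e (2 * u + 3) := by
    intro u
    induction u with
    | zero => exact base h l h2
    | succ u ih => exact step_odd h h1 u (step_even h h1 u ih)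
  intro i j hi hj
  obtain ⟨-, h3, -, h4, h5⟩ := key (i + j) i j hi hj (by omega)
  exact ⟨h3, h4, h5⟩

end Pool.Agent.P78.Beta
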