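import Pool.Agent.Lib.MP_78c6b1_al.Beta.Defs

/-! The two finite cases of the head `3, 2, 2, …`: constant action and the etale head.  Only the
levels up to six are used. -/

set_option linter.unusedSimpArgs false
set_option linter.unusedSectionVars false

namespace Pool.Agent.P78.Beta

namespace FinAux

variable {K : Type} [Field K] [CharZero K]

/-- A Pascal array on the levels at most six in terms of its first row. -/
lemma rows {X : ℕ → ℕ → K} (P : ∀ i j, 1 ≤ i → 1 ≤ j → X i j = X (i + 1) j + X i (j + 1)) :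
    X 2 1 = X 1 1 - X 1 2 ∧ X 2 2 = X 1 2 - X 1 3 ∧ X 2 3 = X 1 3 - X 1 4 ∧
    X 2 4 = X 1 4 - X 1 5 ∧ X 3 1 = X 1 1 - 2 * X 1 2 + X 1 3 ∧
    X 3 2 = X 1 2 - 2 * X 1 3 + X 1 4 ∧ X 3 3 = X 1 3 - 2 * X 1 4 + X 1 5 ∧
    X 4 1 = X 1 1 - 3 * X 1 2 + 3 * X 1 3 - X 1 4 ∧
    X 4 2 = X 1 2 - 3 * X 1 3 + 3 * X 1 4 - X 1 5 ∧
    X 5 1 = X 1 1 - 4 * X 1 2 + 6 * X 1 3 - 4 * X 1 4 + X 1 5 := by
  have h11 : X 1 1 = X 2 1 + X 1 2 := P 1 1 le_rfl le_rfl
  have h12 : X 1 2 = X 2 2 + X 1 3 := P 1 2 le_rfl (by norm_num)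
  have h13 : X 1 3 = X 2 3 + X 1 4 := P 1 3 le_rfl (by norm_num)
  have h14 : X 1 4 = X 2 4 + X 1 5 := P 1 4 le_rfl (by norm_num)
  have h21 : X 2 1 = X 3 1 + X 2 2 := P 2 1 (by norm_num) le_rfl
  have h22 : X 2 2 = X 3 2 + X 2 3 := P 2 2 (by norm_num) (by norm_num)
  have h23 : X 2 3 = X 3 3 + X 2 4 := P 2 3 (by norm_num) (by norm_num)
  have h31 : X 3 1 = X 4 1 + X 3 2 := P 3 1 (by norm_num) le_rfl
  have h32 : X 3 2 = X 4 2 + X 3 3 := P 3 2 (by norm_num) (by norm_num)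
  have h41 : X 4 1 = X 5 1 + X 4 2 := P 4 1 (by norm_num) le_rfl
  have e21 : X 2 1 = X 1 1 - X 1 2 := by linear_combination -h11
  have e22 : X 2 2 = X 1 2 - X 1 3 := by linear_combination -h12
  have e23 : X 2 3 = X 1 3 - X 1 4 := by linear_combination -h13
  have e24 : X 2 4 = X 1 4 - X 1 5 := by linear_combination -h14
  have e31 : X 3 1 = X 1 1 - 2 * X 1 2 + X 1 3 := by linear_combination -h21 + e21 - e22
  have e32 : X 3 2 = X 1 2 - 2 * X 1 3 + X 1 4 := by linear_combination -h22 + e22 - e23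
  have e33 : X 3 3 = X 1 3 - 2 * X 1 4 + X 1 5 := by linear_combination -h23 + e23 - e24
  have e41 : X 4 1 = X 1 1 - 3 * X 1 2 + 3 * X 1 3 - X 1 4 := by
    linear_combination -h31 + e31 - e32
  have e42 : X 4 2 = X 1 2 - 3 * X 1 3 + 3 * X 1 4 - X 1 5 := by
    linear_combination -h32 + e32 - e33
  exact ⟨e21, e22, e23, e24, e31, e32, e33, e41, e42, by linear_combination -h41 + e41 - e42⟩

/-- An antisymmetric Pascal array on the levels at most six. -/
lemma rowsA {X : ℕ → ℕ → K} (P : ∀ i j, 1 ≤ i → 1 ≤ j → X i j = X (i + 1) j + X i (j + 1))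
    (N : ∀ i j, 1 ≤ i → 1 ≤ j → X j i = - X i j) :
    X 1 1 = 0 ∧ X 1 3 = X 1 2 ∧ X 1 5 = 2 * X 1 4 - X 1 2 ∧ X 2 1 = - X 1 2 ∧ X 2 2 = 0 ∧
    X 2 3 = X 1 2 - X 1 4 ∧ X 2 4 = X 1 2 - X 1 4 ∧ X 3 1 = - X 1 2 ∧ X 3 2 = X 1 4 - X 1 2 ∧
    X 3 3 = 0 ∧ X 4 1 = - X 1 4 ∧ X 4 2 = X 1 4 - X 1 2 ∧ X 5 1 = X 1 2 - 2 * X 1 4 := by
  obtain ⟨e21, e22, e23, e24, e31, e32, e33, e41, e42, e51⟩ := rows P
  have z : ∀ i, 1 ≤ i → X i i = 0 := fun i hi => by
    have := N i i hi hi
    have h2 : (2 : K) * X i i = 0 := by linear_combination this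
    exact (mul_eq_zero.1 h2).resolve_left two_ne_zero
  have z1 := z 1 le_rfl
  have z2 := z 2 (by norm_num)
  have z3 := z 3 (by norm_num)
  have e13 : X 1 3 = X 1 2 := by linear_combination e22 - z2
  have e15 : X 1 5 = 2 * X 1 4 - X 1 2 := by linear_combination z3 - e33 - e13
  refine ⟨z1, e13, e15, ?_, z2, ?_, ?_, ?_, ?_, z3, ?_, ?_, ?_⟩
  · linear_combination e21 + z1
  · linear_combination e23 + e13
  · linear_combination e24 - e15
  · linear_combination e31 + z1 + e13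
  · linear_combination e32 - 2 * e13
  · linear_combination e41 + z1 + 3 * e13
  · linear_combination e42 - 3 * e13 - e15
  · linear_combination e51 + z1 + 6 * e13 + e15

lemma cancel {u x : K} (hu : u ≠ 0) (h : u * x = 0) : x = 0 := (mul_eq_zero.1 h).resolve_left hu

end FinAux

open FinAux

theorem betC : BetC := by
  intro K _ _ a c s r p e h L hu r12 c12
  obtain ⟨a12, s11, s12, p12, e12⟩ := L
  obtain ⟨a11, a13, a15, a21, a22, a23, a24, a31, a32, a33, a41, a42, a51⟩ := rowsA h.Pa h.Aa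
  obtain ⟨c11, c13, c15, c21, c22, c23, c24, c31, c32, c33, c41, c42, c51⟩ := rowsA h.Pc h.Ac
  obtain ⟨p11, p13, p15, p21, p22, p23, p24, p31, p32, p33, p41, p42, p51⟩ := rowsA h.Pp h.Ap
  obtain ⟨e11, e13, e15, e21, e22, e23, e24, e31, e32, e33, e41, e42, e51⟩ := rowsA h.Pe h.Ae
  obtain ⟨s21, s22, s23, s24, s31, s32, s33, s41, s42, s51⟩ := rows h.Ps
  obtain ⟨r21, r22, r23, r24, r31, r32, r33, r41, r42, r51⟩ := rows h.Pr
  have E1 := h.ffhF 1 2 1 le_rfl (by norm_num) le_rfl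
  have E2 := h.ffhH 1 2 1 le_rfl (by norm_num) le_rfl
  have E3 := h.ffhF 1 2 2 le_rfl (by norm_num) (by norm_num)
  have E4 := h.ffhH 1 2 2 le_rfl (by norm_num) (by norm_num)
  have E5 := h.fffF 1 2 3 le_rfl (by norm_num) (by norm_num)
  have E6 := h.fffH 1 2 3 le_rfl (by norm_num) (by norm_num)
  have E7 := h.ffhF 1 2 3 le_rfl (by norm_num) (by norm_num)
  have E8 := h.ffhH 1 2 3 le_rfl (by norm_num) (by norm_num)
  have E9 := h.fhhF 1 1 4 le_rfl le_rfl (by norm_num)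
  have E10 := h.hhhH 1 2 3 le_rfl (by norm_num) (by norm_num)
  simp only [Nat.reduceAdd, a11, a13, a15, a21, a22, a23, a24, a31, a32, a33, a41, a42, a51,
    c11, c13, c15, c21, c22, c23, c24, c31, c32, c33, c41, c42, c51,
    p11, p13, p15, p21, p22, p23, p24, p31, p32, p33, p41, p42, p51,
    e11, e13, e15, e21, e22, e23, e24, e31, e32, e33, e41, e42, e51,
    s21, s22, s23, s24, s31, s32, s33, s41, s42, s51,
    r21, r22, r23, r24, r31, r32, r33, r41, r42, r51,
    a12, c12, s11, s12, p12, e12, r12] at E1 E2 E3 E4 E5 E6 E7 E8 E9 E10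
  unfold Com
  rw [a23, c23, s23, r23, s32, r32, p23, e23, a12, c12, s12, p12, e12, r12]
  generalize r 1 1 = u at *
  generalize a 1 4 = A at *
  generalize c 1 4 = G at *
  generalize p 1 4 = F at *
  generalize e 1 4 = E at *
  generalize s 1 3 = s3 at *
  generalize s 1 4 = s4 at *
  generalize s 1 5 = s5 at *
  generalize r 1 3 = r3 at *
  generalize r 1 4 = r4 at *
  generalize r 1 5 = r5 at *
  have hs3 : s3 = 0 := cancel hu (by linear_combination E1)
  have hr3 : r3 = u := sub_eq_zero.1 (cancel hu (by linear_combination E2))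
  subst hs3 hr3
  have hs4 : s4 = 0 := cancel hu (by linear_combination E3)
  have hr4 : r4 = r3 := sub_eq_zero.1 (cancel hu (by linear_combination E4))
  subst hs4 hr4
  have hs5 : s5 = 0 := cancel hu (by linear_combination E7)
  have hr5 : r5 = r4 := sub_eq_zero.1 (cancel hu (by linear_combination E8))
  subst hs5 hr5
  have hA : A = 0 := by
    have : A ^ 2 = 0 := by linear_combination (-1 / 2 : K) * E5
    exact pow_eq_zero_iff two_ne_zero |>.1 this
  subst hA
  have hG : G = 0 := cancel hu (by linear_combination -E6)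
  have hF : F = 0 := cancel hu (by linear_combination -E9)
  subst hG hF
  have hE : E = 0 := by
    have : E ^ 2 = 0 := by linear_combination (-1 / 2 : K) * E10
    exact pow_eq_zero_iff two_ne_zero |>.1 this
  subst hE
  refine ⟨?_, ?_, ?_, ?_, ?_, ?_, ?_, ?_⟩ <;> ring

theorem betT : BetT := by
  intro K _ _ a c s r p e h a12 c12 s11 s12 hu r12 hd e12
  obtain ⟨a11, a13, a15, a21, a22, a23, a24, a31, a32, a33, a41, a42, a51⟩ := rowsA h.Pa h.Aa
  obtain ⟨c11, c13, c15, c21, c22, c23, c24, c31, c32, c33, c41, c42, c51⟩ := rowsA h.Pc h.Ac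
  obtain ⟨p11, p13, p15, p21, p22, p23, p24, p31, p32, p33, p41, p42, p51⟩ := rowsA h.Pp h.Ap
  obtain ⟨e11, e13, e15, e21, e22, e23, e24, e31, e32, e33, e41, e42, e51⟩ := rowsA h.Pe h.Ae
  obtain ⟨s21, s22, s23, s24, s31, s32, s33, s41, s42, s51⟩ := rows h.Ps
  obtain ⟨r21, r22, r23, r24, r31, r32, r33, r41, r42, r51⟩ := rows h.Pr
  have E1 := h.ffhF 1 2 1 le_rfl (by norm_num) le_rfl
  have E2 := h.ffhH 1 2 1 le_rfl (by norm_num) le_rfl
  have E3 := h.fhhF 1 1 3 le_rfl le_rfl (by norm_num)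
  have E4 := h.fhhH 1 1 3 le_rfl le_rfl (by norm_num)
  have J1 := h.fffF 1 2 3 le_rfl (by norm_num) (by norm_num)
  have J2 := h.fffH 1 2 3 le_rfl (by norm_num) (by norm_num)
  have J3 := h.ffhF 1 2 3 le_rfl (by norm_num) (by norm_num)
  have J4 := h.ffhH 1 2 3 le_rfl (by norm_num) (by norm_num)
  have J5 := h.ffhF 2 3 1 (by norm_num) (by norm_num) le_rfl
  have J6 := h.ffhH 2 3 1 (by norm_num) (by norm_num) le_rfl
  have J7 := h.fhhF 2 1 3 (by norm_num) le_rfl (by norm_num)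
  have J8 := h.fhhH 2 1 3 (by norm_num) le_rfl (by norm_num)
  have J9 := h.hhhF 1 2 3 le_rfl (by norm_num) (by norm_num)
  have J10 := h.hhhH 1 2 3 le_rfl (by norm_num) (by norm_num)
  simp only [Nat.reduceAdd, a11, a13, a15, a21, a22, a23, a24, a31, a32, a33, a41, a42, a51,
    c11, c13, c15, c21, c22, c23, c24, c31, c32, c33, c41, c42, c51,
    p11, p13, p15, p21, p22, p23, p24, p31, p32, p33, p41, p42, p51,
    e11, e13, e15, e21, e22, e23, e24, e31, e32, e33, e41, e42, e51,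
    s21, s22, s23, s24, s31, s32, s33, s41, s42, s51,
    r21, r22, r23, r24, r31, r32, r33, r41, r42, r51,
    a12, c12, s11, s12, e12, r12] at E1 E2 E3 E4 J1 J2 J3 J4 J5 J6 J7 J8 J9 J10
  unfold Com
  rw [a23, c23, s23, r23, s32, r32, p23, e23, a12, c12, s12, e12, r12]
  generalize r 1 1 = u at *
  generalize p 1 2 = d at *
  generalize a 1 4 = A at *
  generalize c 1 4 = G at *
  generalize p 1 4 = F at *
  generalize e 1 4 = E at *
  generalize s 1 3 = s3 at *
  generalize s 1 4 = s4 at *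
  generalize s 1 5 = s5 at *
  generalize r 1 3 = r3 at *
  generalize r 1 4 = r4 at *
  generalize r 1 5 = r5 at *
  have hs3 : s3 = 0 := cancel hu (by linear_combination (1 / 2 : K) * E1)
  have hr3 : r3 = 0 := cancel hu (by linear_combination (1 / 2 : K) * E2)
  subst hs3 hr3
  obtain ⟨δ, rfl⟩ : ∃ δ, d = δ * u := ⟨d / u, by field_simp⟩
  have hδ : δ ≠ 0 := left_ne_zero_of_mul hd
  have hF : F = δ * u - δ * A := sub_eq_zero.1 (cancel hu (by linear_combination E3))
  have hE : E = - δ * G := sub_eq_zero.1 (cancel hu (by linear_combination E4))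
  subst hF hE
  have hs5 : s5 = 2 * s4 :=
    sub_eq_zero.1 (cancel hd (by linear_combination (-1 / 4 : K) * (δ * J5 + J9)))
  have hr5 : r5 = 2 * r4 :=
    sub_eq_zero.1 (cancel hd (by linear_combination (-1 / 4 : K) * (δ * J6 + J10)))
  subst hs5 hr5
  have K1 : A ^ 2 + G * s4 = 0 := by linear_combination (-1 / 2 : K) * J1
  have K2 : (A + r4) * G = 0 := by linear_combination (-1 / 2 : K) * J2
  have K3 : (A + r4) * s4 = 0 := by linear_combination (-1 / 2 : K) * J3
  have K4 : G * s4 + r4 ^ 2 = 0 := by linear_combination (-1 / 2 : K) * J4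
  have hA : r4 = -A := by
    by_contra hne
    have hne' : A + r4 ≠ 0 := fun h0 => hne (by linear_combination h0)
    have hG := cancel hne' K2
    have h1 : A ^ 2 = 0 := by rw [hG] at K1; linear_combination K1
    have h2 : r4 ^ 2 = 0 := by rw [hG] at K4; linear_combination K4
    rw [pow_eq_zero_iff two_ne_zero] at h1 h2
    exact hne' (by rw [h1, h2, add_zero])
  subst hA
  have hs4 : s4 = δ * G := by
    have : (s4 - δ * G) ^ 2 = 0 := by
      linear_combination (1 / 2 : K) * (δ * J6 + J7) - 2 * δ * K1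
    exact sub_eq_zero.1 (pow_eq_zero_iff two_ne_zero |>.1 this)
  subst hs4
  have hG : G = 0 := cancel hd (by linear_combination (-1 / 2 : K) * J8)
  subst hG
  have hA : A = 0 := by
    have : A ^ 2 = 0 := by linear_combination K1
    exact pow_eq_zero_iff two_ne_zero |>.1 this
  subst hA
  refine ⟨?_, ?_, ?_, ?_, ?_, ?_, ?_, ?_⟩ <;> ring

end Pool.Agent.P78.Beta
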