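import Pool.Agent.Lib.MP_78c6b1_al.Beta.Defs

/-! The harmonic action: the lane `h` is an abelian ideal. -/

namespace Pool.Agent.P78.Beta

namespace HAux

variable {K : Type} [Field K]

/-- A Pascal array that vanishes up to level `m` and at `(1, m)` vanishes up to level `m + 1`. -/
lemma level {X : ℕ → ℕ → K} (P : ∀ i j, 1 ≤ i → 1 ≤ j → X i j = X (i + 1) j + X i (j + 1)) {m : ℕ}
    (h : ∀ i j, 1 ≤ i → 1 ≤ j → i + j ≤ m → X i j = 0) (h1 : X 1 m = 0) :
    ∀ i j, 1 ≤ i → 1 ≤ j → i + j ≤ m + 1 → X i j = 0 := by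
  intro i
  induction i with
  | zero => intro j hi; omega
  | succ i ih =>
    intro j _ hj hij
    rcases Nat.lt_or_ge (i + 1 + j) (m + 1) with hlt | hge
    · exact h _ _ (by omega) hj (by omega)
    · rcases Nat.eq_zero_or_pos i with rfl | hpos
      · have : j = m := by omega
        subst this
        simpa using h1
      · have e1 := P i j hpos hj
        rw [h i j hpos hj (by omega), ih (j + 1) hpos (by omega) (by omega)] at e1
        simpa using e1.symm

lemma base {X : ℕ → ℕ → K} (P : ∀ i j, 1 ≤ i → 1 ≤ j → X i j = X (i + 1) j + X i (j + 1))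
    (h11 : X 1 1 = 0) (h12 : X 1 2 = 0) : ∀ i j, 1 ≤ i → 1 ≤ j → i + j ≤ 0 + 3 → X i j = 0 := by
  refine level P (m := 2) (fun i j hi hj hij => ?_) h12
  obtain rfl : i = 1 := by omega
  obtain rfl : j = 1 := by omega
  exact h11

end HAux

open HAux in
theorem betH : BetH := by
  intro K _ _ a c s r p e S L h1 h2 h12
  obtain ⟨u, hu⟩ : ∃ u : K, r 1 1 * u = 1 := ⟨(r 1 1)⁻¹, mul_inv_cancel₀ h1⟩
  obtain ⟨d, hd⟩ : ∃ d : K, r 1 2 * (u + d) = 1 :=
    ⟨(r 1 2)⁻¹ - u, by rw [add_sub_cancel]; exact mul_inv_cancel₀ h2⟩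
  have hd0 : d ≠ 0 := by
    rintro rfl
    apply h12
    linear_combination (-r 1 1) * hd + r 1 2 * hu
  have inv : ∀ k : ℕ, (∀ i j, 1 ≤ i → 1 ≤ j → i + j ≤ k + 3 → s i j = 0) ∧
      (∀ i j, 1 ≤ i → 1 ≤ j → i + j ≤ k + 3 → p i j = 0) ∧
      (∀ i j, 1 ≤ i → 1 ≤ j → i + j ≤ k + 3 → e i j = 0) ∧
      r 1 (k + 1) * (u + k * d) = 1 ∧ r 1 (k + 2) * (u + (k + 1) * d) = 1 := by
    intro k
    induction k with
    | zero =>
      have p11 : p 1 1 = 0 := by linear_combination (1 / 2 : K) * S.Ap 1 1 le_rfl le_rfl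
      have e11 : e 1 1 = 0 := by linear_combination (1 / 2 : K) * S.Ae 1 1 le_rfl le_rfl
      refine ⟨base S.Ps L.s11 L.s12, base S.Pp p11 L.p12, base S.Pe e11 L.e12, ?_, ?_⟩
      · simpa using hu
      · simpa using hd
    | succ k ih =>
      obtain ⟨hs, hp, he, w1, w2⟩ := ih
      have hr : r 1 1 - r 1 (k + 2) ≠ 0 := by
        intro h0
        have hk : ((k : K) + 1) ≠ 0 := by exact_mod_cast Nat.succ_ne_zero k
        have : r 1 1 * (((k : K) + 1) * d) = 0 := by
          linear_combination w2 - hu + (u + (k + 1) * d) * h0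
        exact mul_ne_zero h1 (mul_ne_zero hk hd0) this
      have i1 : 1 + (k + 2) = k + 3 := by omega
      have i2 : 2 + (k + 1) = k + 3 := by omega
      have i3 : 1 + (k + 1) = k + 2 := by omega
      have s11 := L.s11
      have a12 := L.a12
      have sa : s 1 (k + 2) = 0 := hs _ _ le_rfl (by omega) (by omega)
      have sb : s 1 (k + 1) = 0 := hs _ _ le_rfl (by omega) (by omega)
      have sc : s 2 (k + 1) = 0 := hs _ _ (by omega) (by omega) (by omega)
      have pa : p 1 (k + 2) = 0 := hp _ _ le_rfl (by omega) (by omega)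
      have ea : e 1 (k + 2) = 0 := he _ _ le_rfl (by omega) (by omega)
      have hp' : p 1 (k + 3) = 0 := by
        have j1 := S.fhhF 1 1 (k + 2) le_rfl le_rfl (by omega)
        have j2 := S.Pp 1 (k + 2) le_rfl (by omega)
        have j3 := S.Ap 1 (k + 3) le_rfl (by omega)
        rw [i1, pa, ea, s11, sa, j3] at j1
        rw [pa] at j2
        refine (mul_eq_zero.1 ?_).resolve_left hr
        linear_combination j1 - r 1 1 * j2
      have he' : e 1 (k + 3) = 0 := by
        have j1 := S.fhhH 1 1 (k + 2) le_rfl le_rfl (by omega)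
        have j2 := S.Pe 1 (k + 2) le_rfl (by omega)
        have j3 := S.Ae 1 (k + 3) le_rfl (by omega)
        rw [i1, pa, ea, s11, sa, j3] at j1
        rw [ea] at j2
        refine (mul_eq_zero.1 ?_).resolve_left hr
        linear_combination j1 - r 1 1 * j2
      have Hp := level S.Pp hp hp'
      have He := level S.Pe he he'
      have q1 : r 1 (k + 1) = r 2 (k + 1) + r 1 (k + 2) := S.Pr 1 (k + 1) le_rfl (by omega)
      have q2 : r 1 (k + 2) = r 2 (k + 2) + r 1 (k + 3) := S.Pr 1 (k + 2) le_rfl (by omega)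
      have key : r 1 (k + 3) * (2 * r 1 (k + 1) - r 1 (k + 2)) = r 1 (k + 1) * r 1 (k + 2) := by
        have j1 := S.ffhH 1 2 (k + 1) le_rfl (by omega) (by omega)
        rw [i2, i3, sc, sb, a12, He (1 + 2) (k + 1) (by omega) (by omega) (by omega)] at j1
        linear_combination j1 + r 1 (k + 3) * q1 - r 1 (k + 1) * q2
      have w3 : r 1 (k + 3) * (u + ((k : K) + 1 + 1) * d) = 1 := by
        linear_combination (u + k * d) * (u + (k + 1) * d) * key +
          (r 1 (k + 2) * (u + (k + 1) * d) - 2 * r 1 (k + 3) * (u + (k + 1) * d)) * w1 +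
          (1 + r 1 (k + 3) * (u + k * d)) * w2
      have hs' : s 1 (k + 3) = 0 := by
        have j1 := S.ffhF 1 2 (k + 1) le_rfl (by omega) (by omega)
        have j2 : s 1 (k + 2) = s 2 (k + 2) + s 1 (k + 3) := S.Ps 1 (k + 2) le_rfl (by omega)
        rw [i2, i3, sc, sb, a12, Hp (1 + 2) (k + 1) (by omega) (by omega) (by omega)] at j1
        rw [sa] at j2
        have j3 : (2 * r 1 (k + 1) - r 1 (k + 2)) * s 1 (k + 3) = 0 := by
          linear_combination j1 + s 1 (k + 3) * q1 - r 1 (k + 1) * j2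
        have j4 : r 1 (k + 1) * r 1 (k + 2) * s 1 (k + 3) = 0 := by
          linear_combination r 1 (k + 3) * j3 - s 1 (k + 3) * key
        exact (mul_eq_zero.1 j4).resolve_left
          (mul_ne_zero (left_ne_zero_of_mul_eq_one w1) (left_ne_zero_of_mul_eq_one w2))
      refine ⟨level S.Ps hs hs', Hp, He, ?_, ?_⟩
      · push_cast; exact w2
      · push_cast; exact w3
  intro i j hi hj
  obtain ⟨hs, hp, he, -⟩ := inv (i + j)
  exact ⟨hs i j hi hj (by omega), hp i j hi hj (by omega), he i j hi hj (by omega)⟩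

end Pool.Agent.P78.Beta
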