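import Pool.Agent.Lib.MP_78c6b1_al.Beta.Defs

/-! The nilpotent head: the deviations which are not in the direction `f`. -/

namespace Pool.Agent.P78.Beta

namespace Ib

variable {K : Type} [Field K] [CharZero K]

/-- Pascal rule. -/
def Pas (X : ℕ → ℕ → K) : Prop := ∀ i j, 1 ≤ i → 1 ≤ j → X i j = X (i + 1) j + X i (j + 1)

/-- Antisymmetry. -/
def Ant (X : ℕ → ℕ → K) : Prop := ∀ i j, 1 ≤ i → 1 ≤ j → X j i = - X i j

/-- Vanishing on one level. -/
def Zl (X : ℕ → ℕ → K) (n : ℕ) : Prop := ∀ i j, 1 ≤ i → 1 ≤ j → i + j = n → X i j = 0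

lemma lv {X : ℕ → ℕ → K} (P : Pas X) {n : ℕ} {u k : K}
    (h : ∀ x j : ℕ, 1 ≤ j → x + 1 + j = n → X (x + 1) j = (-1) ^ x * (u - x * k)) :
    ∀ x j : ℕ, 1 ≤ j → x + 1 + j = n + 1 →
      X (x + 1) j = (-1) ^ x * (X 1 n - x * u + x * (x - 1) / 2 * k) := by
  intro x
  induction x with
  | zero => intro j _ hj; obtain rfl : j = n := by omega
            simp
  | succ x ih =>
    intro j hj hx
    have h1 := P (x + 1) j (by omega) hj
    rw [h x j hj (by omega), ih (j + 1) (by omega) (by omega)] at h1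
    push_cast
    linear_combination -h1

lemma lv0 {X : ℕ → ℕ → K} (P : Pas X) {n : ℕ} (h : Zl X n) :
    ∀ x j : ℕ, 1 ≤ j → x + 1 + j = n + 1 → X (x + 1) j = (-1) ^ x * X 1 n := fun x j hj hx => by
  rw [lv P (u := 0) (k := 0) (fun x j hj hx => by rw [h _ _ (by omega) hj hx]; simp) x j hj hx]
  simp

lemma lv1 {X : ℕ → ℕ → K} (P : Pas X) {n : ℕ} (h : Zl X n) :
    ∀ x j : ℕ, 1 ≤ j → x + 1 + j = n + 1 + 1 →
      X (x + 1) j = (-1) ^ x * (X 1 (n + 1) - x * X 1 n) := fun x j hj hx => by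
  rw [lv P (u := X 1 n) (k := 0) (fun x j hj hx => by rw [lv0 P h x j hj hx]; simp) x j hj hx]
  simp

lemma Zl.succ {X : ℕ → ℕ → K} (P : Pas X) {n : ℕ} (h : Zl X n) (i j : ℕ)
    (H : 1 ≤ i ∧ 1 ≤ j ∧ i + j = n + 1) (h0 : X i j = 0) : Zl X (n + 1) := by
  obtain ⟨x, rfl⟩ : ∃ x, i = x + 1 := ⟨i - 1, by omega⟩
  rw [lv0 P h x j H.2.1 H.2.2] at h0
  have h1 : X 1 n = 0 := (mul_eq_zero.1 h0).resolve_left (pow_ne_zero _ (by norm_num))
  intro i' j' hi hj hn
  obtain ⟨y, rfl⟩ : ∃ y, i' = y + 1 := ⟨i' - 1, by omega⟩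
  rw [lv0 P h y j' hj hn, h1, mul_zero]

lemma diag {X : ℕ → ℕ → K} (A : Ant X) (i : ℕ) (hi : 1 ≤ i) : X i i = 0 := by
  have := A i i hi hi
  linear_combination (1 / 2 : K) * this

lemma Zl.even {X : ℕ → ℕ → K} (P : Pas X) (A : Ant X) {n : ℕ} (h : Zl X n) (i : ℕ)
    (H : 1 ≤ i ∧ i + i = n + 1) : Zl X (n + 1) :=
  h.succ P i i ⟨H.1, H.1, H.2⟩ (diag A i H.1)

lemma keyA {X : ℕ → ℕ → K} (P : Pas X) (A : Ant X) {N : ℕ} (h : Zl X (N + 3))
    (h0 : X 2 (N + 2) * X 1 (N + 4) = 0) : Zl X (N + 4) := by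
  obtain ⟨q, rfl | rfl⟩ := Nat.even_or_odd' N
  · exact h.even P A (q + 2) (by omega)
  · have h1 := lv1 P h (q + 2) (q + 3) (by omega) (by omega)
    have h2 := lv0 P h 1 (2 * q + 1 + 2) (by omega) (by omega)
    rw [diag A (q + 2 + 1) (by omega)] at h1
    have h3 := (mul_eq_zero.1 h1.symm).resolve_left (pow_ne_zero _ (by norm_num))
    have h4 : ((q + 2 : ℕ) : K) ≠ 0 := Nat.cast_ne_zero.2 (by omega)
    refine h.succ P 1 (2 * q + 1 + 3) (by omega) ?_
    have h5 : ((q + 2 : ℕ) : K) * X 1 (2 * q + 1 + 3) ^ 2 = 0 := by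
      rw [show (2 : ℕ) = 1 + 1 from rfl] at h0
      rw [show (2 : ℕ) = 1 + 1 from rfl] at h2 h3 ⊢
      rw [h2] at h0
      linear_combination -h0 - X 1 ((1 + 1) * q + 1 + 3) * h3
    exact pow_eq_zero_iff (two_ne_zero) |>.1 ((mul_eq_zero.1 h5).resolve_left h4)

variable {a c s r p e : ℕ → ℕ → K}

omit [CharZero K] in
lemma fff (h : Six a c s r p e) (i j k x y z : ℕ)
    (H : 1 ≤ i ∧ 1 ≤ j ∧ 1 ≤ k ∧ j + k = x ∧ i + k = y ∧ i + j = z) :
    a j k * a i x + c j k * s i x - a i k * a j y - c i k * s j y = - a i j * a k z - c i j * s k z ∧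
    a j k * c i x + c j k * r i x - a i k * c j y - c i k * r j y =
      - a i j * c k z - c i j * r k z := by
  obtain ⟨h1, h2, h3, rfl, rfl, rfl⟩ := H
  exact ⟨h.fffF i j k h1 h2 h3, h.fffH i j k h1 h2 h3⟩

omit [CharZero K] in
lemma ffh (h : Six a c s r p e) (i j k x y z : ℕ)
    (H : 1 ≤ i ∧ 1 ≤ j ∧ 1 ≤ k ∧ j + k = x ∧ i + k = y ∧ i + j = z) :
    s j k * a i x + r j k * s i x - s i k * a j y - r i k * s j y = a i j * s z k + c i j * p z k ∧
    s j k * c i x + r j k * r i x - s i k * c j y - r i k * r j y =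
      a i j * r z k + c i j * e z k := by
  obtain ⟨h1, h2, h3, rfl, rfl, rfl⟩ := H
  exact ⟨h.ffhF i j k h1 h2 h3, h.ffhH i j k h1 h2 h3⟩

omit [CharZero K] in
lemma fhh (h : Six a c s r p e) (i j k x y z : ℕ)
    (H : 1 ≤ i ∧ 1 ≤ j ∧ 1 ≤ k ∧ j + k = x ∧ i + k = y ∧ i + j = z) :
    p j k * a i x + e j k * s i x = s i j * s z k + r i j * p z k - s i k * s y j - r i k * p y j ∧
    p j k * c i x + e j k * r i x =
      s i j * r z k + r i j * e z k - s i k * r y j - r i k * e y j := by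
  obtain ⟨h1, h2, h3, rfl, rfl, rfl⟩ := H
  exact ⟨h.fhhF i j k h1 h2 h3, h.fhhH i j k h1 h2 h3⟩

/-- The array `c` when it vanishes in the middle of a level. -/
lemma down (P : Pas c) (A : Ant c) {N : ℕ} (h1 : ∀ i j, 3 ≤ i → 3 ≤ j → i + j = N + 5 → c i j = 0)
    (h2 : c 2 (N + 3) = - c 1 2 / 2) (x : ℕ) (hx : x ≤ N) : c 1 (x + 3) = c 1 2 * (x + 2) / 2 := by
  have k1 : ∀ t i j, 3 ≤ i → 3 ≤ j → i + j + t = N + 5 → c i j = 0 := by
    intro t
    induction t with
    | zero => exact h1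
    | succ t ih =>
      intro i j hi hj ht
      rw [P i j (by omega) (by omega), ih (i + 1) j (by omega) hj (by omega),
        ih i (j + 1) hi (by omega) (by omega), add_zero]
  have k2 : ∀ t j, 3 ≤ j → j + t = N + 3 → c 2 j = - c 1 2 / 2 := by
    intro t
    induction t with
    | zero => intro j _ hj; obtain rfl : j = N + 3 := by omega
              exact h2
    | succ t ih =>
      intro j hj ht
      rw [P 2 j (by omega) (by omega), k1 t (2 + 1) j (by omega) hj (by omega),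
        ih (j + 1) (by omega) (by omega), zero_add]
  induction x with
  | zero =>
    have := P 1 2 (by omega) (by omega)
    rw [show c (1 + 1) 2 = 0 from diag A 2 (by omega)] at this
    push_cast
    linear_combination -this
  | succ x ih =>
    have := P 1 (x + 3) (by omega) (by omega)
    rw [ih (by omega), show c (1 + 1) (x + 3) = _ from k2 (N - x) (x + 3) (by omega) (by omega)]
      at this
    push_cast
    linear_combination -this

end Ib

open Ib in
theorem betIb : BetIb := by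
  intro K _ _ a c s r p e m h hm hz hc hs
  obtain ⟨N, rfl⟩ : ∃ N, m = N + 3 := ⟨m - 3, by omega⟩
  have za : ∀ i j, 1 ≤ i → 1 ≤ j → i + j ≤ N + 3 → a i j = 0 := fun i j u v w => (hz i j u v w).1
  have zs : ∀ i j, 1 ≤ i → 1 ≤ j → i + j ≤ N + 3 → s i j = 0 := fun i j u v w => (hz i j u v w).2.1
  have zr : ∀ i j, 1 ≤ i → 1 ≤ j → i + j ≤ N + 3 → r i j = 0 :=
    fun i j u v w => (hz i j u v w).2.2.1
  have zp : ∀ i j, 1 ≤ i → 1 ≤ j → i + j ≤ N + 3 → p i j = 0 :=
    fun i j u v w => (hz i j u v w).2.2.2.1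
  have ze : ∀ i j, 1 ≤ i → 1 ≤ j → i + j ≤ N + 3 → e i j = 0 :=
    fun i j u v w => (hz i j u v w).2.2.2.2
  have a3 : Zl a (N + 3) := fun i j u v w => za i j u v w.le
  have s3 : Zl s (N + 3) := fun i j u v w => zs i j u v w.le
  have r3 : Zl r (N + 3) := fun i j u v w => zr i j u v w.le
  have p3 : Zl p (N + 3) := fun i j u v w => zp i j u v w.le
  have e3 : Zl e (N + 3) := fun i j u v w => ze i j u v w.le
  have cz : ∀ {x : K}, c 1 2 * x = 0 → x = 0 := fun hx => (mul_eq_zero.1 hx).resolve_left hc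
  have s4 : Zl s (N + 4) := s3.succ h.Ps 1 (N + 3) (by omega) hs
  have s4' : ∀ i j, 1 ≤ i → 1 ≤ j → i + j = N + 4 → s i j = 0 := s4
  obtain ⟨J1, J2⟩ := ffh h 1 2 (N + 1) (N + 3) (N + 2) 3 (by omega)
  simp (disch := omega) only [za, zs, zr, zero_mul, add_zero, sub_zero, zero_add] at J1 J2
  have p4 : Zl p (N + 4) := p3.succ h.Pp 3 (N + 1) (by omega) (cz J1.symm)
  have e4 : Zl e (N + 4) := e3.succ h.Pe 3 (N + 1) (by omega) (cz J2.symm)
  suffices H : Zl a (N + 4) ∧ Zl r (N + 4) by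
    intro i j hi hj hij
    rcases hij.lt_or_eq with hij | hij
    · exact hz i j hi hj (by omega)
    · exact ⟨H.1 i j hi hj hij, s4 i j hi hj hij, H.2 i j hi hj hij, p4 i j hi hj hij,
        e4 i j hi hj hij⟩
  obtain ⟨J3, J4⟩ := ffh h 1 2 (N + 2) (N + 4) (N + 3) 3 (by omega)
  obtain ⟨J5, J6⟩ := fhh h 2 (N + 2) 1 (N + 3) 3 (N + 4) (by omega)
  obtain ⟨J7, J8⟩ := fff h 1 2 (N + 2) (N + 4) (N + 3) 3 (by omega)
  simp (disch := omega) only [za, zs, zr, zp, ze, s4', zero_mul, add_zero, sub_zero, zero_add,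
    neg_zero, zero_sub] at J3 J4 J5 J6 J7 J8
  have kA : Zl s (N + 5) → Zl a (N + 4) := fun s5 => keyA h.Pa h.Aa a3 (by
    rw [s5 1 _ (by omega) (by omega) (by omega), s5 2 _ (by omega) (by omega) (by omega),
      s5 _ 3 (by omega) (by omega) (by omega)] at J7
    linear_combination J7)
  have r2 : r 2 (N + 2) = - r 1 (N + 3) := by
    simpa using lv0 h.Pr r3 1 (N + 2) (by omega) (by omega)
  by_cases hB : r 1 (N + 3) = 0
  · refine ⟨?_, r3.succ h.Pr 1 (N + 3) (by omega) hB⟩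
    rw [r2, hB, neg_zero, zero_mul] at J3
    have p5 : Zl p (N + 5) := p4.succ h.Pp 3 (N + 2) (by omega) (cz J3.symm)
    obtain ⟨J9, -⟩ := ffh h 2 (N + 2) 1 (N + 3) 3 (N + 4) (by omega)
    rw [p5 (N + 4) 1 (by omega) (by omega) (by omega)] at J9
    simp (disch := omega) only [zs, zr, zero_mul, add_zero, sub_zero, mul_zero] at J9
    rcases mul_eq_zero.1 J9.symm with h0 | h0
    · exact a3.succ h.Pa 2 (N + 2) (by omega) h0
    · exact kA (s4.succ h.Ps (N + 4) 1 (by omega) h0)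
  exfalso
  have bz : ∀ {x : K}, r 1 (N + 3) * x = 0 → x = 0 := fun hx => (mul_eq_zero.1 hx).resolve_left hB
  rw [r2] at J3 J4 J5 J6
  have p5 : Zl p (N + 5) := p4.succ h.Pp (N + 4) 1 (by omega) (bz (by linear_combination J5))
  have e5 : Zl e (N + 5) := e4.succ h.Pe (N + 4) 1 (by omega) (bz (by linear_combination J6))
  rw [p5 3 _ (by omega) (by omega) (by omega)] at J3
  rw [e5 3 _ (by omega) (by omega) (by omega)] at J4
  have s5 : Zl s (N + 5) := s4.succ h.Ps 1 (N + 4) (by omega) (bz (by linear_combination -J3))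
  have s5' : ∀ i j, 1 ≤ i → 1 ≤ j → i + j = N + 5 → s i j = 0 := s5
  have r14 : r 1 (N + 4) = 0 := bz (by linear_combination -J4)
  have a4 := kA s5
  have a4' : ∀ i j, 1 ≤ i → 1 ≤ j → i + j = N + 4 → a i j = 0 := a4
  have R5 := lv1 h.Pr r3
  have R6 := lv h.Pr R5
  simp only [show N + 3 + 1 = N + 4 from rfl, show N + 4 + 1 = N + 5 from rfl, r14] at R5 R6
  have r23 : r 2 (N + 3) = r 1 (N + 3) := by simpa using R5 1 (N + 3) (by omega) (by omega)
  have rn3 : r (N + 2) 3 = _ := R5 (N + 1) 3 (by omega) (by omega)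
  have r24 : r 2 (N + 4) = - r 1 (N + 5) := by simpa using R6 1 (N + 4) (by omega) (by omega)
  have rm3 : r (N + 3) 3 = _ := R6 (N + 2) 3 (by omega) (by omega)
  have rm1 : r (N + 5) 1 = _ := R6 (N + 4) 1 (by omega) (by omega)
  have rl1 : r (N + 3) 1 = _ := lv0 h.Pr r3 (N + 2) 1 (by omega) (by omega)
  have s24 : s 2 (N + 4) = - s 1 (N + 5) := by
    simpa using lv0 h.Ps s5 1 (N + 4) (by omega) (by omega)
  obtain ⟨L1, L2⟩ := ffh h 1 2 (N + 3) (N + 5) (N + 4) 3 (by omega)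
  obtain ⟨L3, L4⟩ := ffh h 2 (N + 3) 1 (N + 4) 3 (N + 5) (by omega)
  obtain ⟨-, L5⟩ := fff h 1 2 (N + 3) (N + 5) (N + 4) 3 (by omega)
  simp (disch := omega) only [za, zs, zr, s4', s5', a4', zero_mul, add_zero, sub_zero, zero_add,
    neg_zero, zero_sub] at J8 L1 L2 L3 L4 L5
  have sg : ((-1 : K) ^ N) ≠ 0 := pow_ne_zero _ (by norm_num)
  have n1 : ((N : K) + 1) ≠ 0 := by exact_mod_cast Nat.succ_ne_zero N
  have n2 : ((N : K) + 2) ≠ 0 := by exact_mod_cast Nat.succ_ne_zero (N + 1)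
  have n3 : ((N : K) + 3) ≠ 0 := by exact_mod_cast Nat.succ_ne_zero (N + 2)
  have n4 : ((N : K) + 4) ≠ 0 := by exact_mod_cast Nat.succ_ne_zero (N + 3)
  have fin : a 2 (N + 3) = 0 → r 1 (N + 5) = 0 → False := fun h1 h2 => by
    rw [h1, r24, rm3, h2] at L5
    push_cast at L5
    refine mul_ne_zero (mul_ne_zero (mul_ne_zero (mul_ne_zero hc sg) n1) n2) hB ?_
    linear_combination 2 * L5
  rw [r23, s24] at L1
  rw [r23, r24] at L2
  obtain ⟨q, hq | hq⟩ := Nat.even_or_odd' N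
  · have e6 : Zl e (N + 6) := e5.even h.Pe h.Ae (q + 3) (by omega)
    rw [e6 3 _ (by omega) (by omega) (by omega)] at L2
    have w0 : r 1 (N + 5) = 0 := bz (by linear_combination (1 / 2 : K) * L2)
    refine fin ?_ w0
    rw [e6 _ 1 (by omega) (by omega) (by omega), r24, rm1, w0] at L4
    push_cast at L4
    refine (mul_eq_zero.1 (?_ : a 2 (N + 3) * ((-1) ^ N * (N + 3) * (N + 4) * r 1 (N + 3)) = 0)
      ).resolve_right (mul_ne_zero (mul_ne_zero (mul_ne_zero sg n3) n4) hB)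
    linear_combination -2 * L4
  · have a5 : Zl a (N + 5) := a4.even h.Pa h.Aa (q + 3) (by omega)
    have a23 := a5 2 (N + 3) (by omega) (by omega) (by omega)
    have so : (-1 : K) ^ N = -1 := Odd.neg_one_pow ⟨q, hq⟩
    have e33 : e 3 (N + 3) = e 1 (N + 5) := by
      simpa using lv0 h.Pe e5 2 (N + 3) (by omega) (by omega)
    have e51 : e (N + 5) 1 = - e 1 (N + 5) := h.Ae 1 (N + 5) (by omega) (by omega)
    by_cases hE : e 1 (N + 5) = 0
    · rw [e33, hE] at L2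
      exact fin a23 (bz (by linear_combination (1 / 2 : K) * L2))
    have ez : ∀ {x : K}, x * e 1 (N + 5) = 0 → x = 0 :=
      fun hx => (mul_eq_zero.1 hx).resolve_right hE
    have c1 : ∀ i j, 3 ≤ i → 3 ≤ j → i + j = N + 5 → c i j = 0 := fun i j hi hj hij => by
      obtain ⟨-, L⟩ := ffh h i j 1 (j + 1) (i + 1) (N + 5) (by omega)
      rw [zs j 1 (by omega) (by omega) (by omega), zr j 1 (by omega) (by omega) (by omega),
        zs i 1 (by omega) (by omega) (by omega), zr i 1 (by omega) (by omega) (by omega),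
        a5 i j (by omega) (by omega) hij, e51] at L
      exact ez (by linear_combination L)
    have c2 : c 2 (N + 3) = - c 1 2 / 2 := by
      rw [a23, e51, r24, rl1, pow_add, so] at L4
      rw [e33] at L2
      have := ez (x := c 2 (N + 3) + c 1 2 / 2) (by linear_combination L4 - (1 / 2 : K) * L2)
      linear_combination this
    have c3 := down h.Pc h.Ac c1 c2 (2 * q) (by omega)
    rw [show 2 * q + 3 = N + 2 by omega] at c3
    rw [r14, r23, rn3, c3, pow_add, so] at J8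
    have hN : (N : K) = 2 * q + 1 := by exact_mod_cast hq
    push_cast at J8
    refine mul_ne_zero (mul_ne_zero hc n1) hB ?_
    rw [hN] at J8 ⊢
    linear_combination (-2 / 3 : K) * J8

end Pool.Agent.P78.Beta
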