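import Pool.Agent.Lib.MP_78c6b1_al.Beta.Defs

/-! The nilpotent head, first deviation in the direction `f`. -/

namespace Pool.Agent.P78.Beta

namespace Ic

variable {K : Type} [Field K]

/-- The Pascal rule. -/
def Pas (X : ℕ → ℕ → K) : Prop := ∀ i j, 1 ≤ i → 1 ≤ j → X i j = X (i + 1) j + X i (j + 1)

/-- The array vanishes on level `n`. -/
def Zr (X : ℕ → ℕ → K) (n : ℕ) : Prop := ∀ i j, 1 ≤ i → 1 ≤ j → i + j = n → X i j = 0

/-- The array is a signed binomial coefficient on level `n`. -/
def Lv (X : ℕ → ℕ → K) (n t : ℕ) (C : K) : Prop :=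
  ∀ k l, 1 ≤ k → k + l + 1 = n → X k (l + 1) = (-1) ^ k * (l.choose t : K) * C

theorem sg_ne (k : ℕ) : ((-1 : K) ^ k) ≠ 0 := pow_ne_zero _ (neg_ne_zero.2 one_ne_zero)

theorem lv_zero {X : ℕ → ℕ → K} {n : ℕ} (hP : Pas X) (h : Zr X n) : Lv X (n + 1) 0 (-X 1 n) := by
  intro k l hk
  induction k, hk using Nat.le_induction generalizing l with
  | base =>
    intro e
    have : l + 1 = n := by omega
    rw [this]
    simp
  | succ k hk ih =>
    intro e
    have e1 := hP k (l + 1) hk (by omega)
    rw [h k (l + 1) hk (by omega) (by omega), ih (l + 1) (by omega)] at e1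
    simp only [Nat.choose_zero_right, Nat.cast_one] at e1 ⊢
    rw [pow_succ]
    linear_combination -e1

theorem lv_succ {X : ℕ → ℕ → K} {n t : ℕ} {C : K} (hP : Pas X) (h : Lv X n t C) (h0 : X n 1 = 0) :
    Lv X (n + 1) (t + 1) C := by
  intro k l
  induction l generalizing k with
  | zero =>
    intro hk e
    have : k = n := by omega
    rw [this, zero_add, h0]
    simp
  | succ l ih =>
    intro hk e
    have e1 := hP k (l + 1) hk (by omega)
    rw [h k l hk (by omega), ih (k + 1) (by omega) (by omega)] at e1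
    rw [Nat.choose_succ_succ', Nat.cast_add]
    rw [pow_succ] at e1
    linear_combination -e1

theorem Lv.zr {X : ℕ → ℕ → K} {n t : ℕ} (h : Lv X n t 0) : Zr X n := by
  intro i j hi hj e
  obtain ⟨l, rfl⟩ : ∃ l, j = l + 1 := ⟨j - 1, by omega⟩
  rw [h i l hi (by omega), mul_zero]

theorem zr_succ {X : ℕ → ℕ → K} {n : ℕ} (hP : Pas X) (h : Zr X n) {i j : ℕ} (hi : 1 ≤ i)
    (hj : 1 ≤ j) (e : i + j = n + 1) (h0 : X i j = 0) : Zr X (n + 1) := by
  have h1 := lv_zero hP h
  obtain ⟨l, rfl⟩ : ∃ l, j = l + 1 := ⟨j - 1, by omega⟩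
  have h2 := h1 i l hi (by omega)
  rw [h0, Nat.choose_zero_right, Nat.cast_one, mul_one] at h2
  rw [(mul_eq_zero.1 h2.symm).resolve_left (sg_ne i)] at h1
  exact h1.zr

theorem arith [CharZero K] {c : ℕ → ℕ → K} {φ : ℕ → K} {m : ℕ} (hm : 1 ≤ m) (hP : Pas c)
    (h0 : ∀ i j, 1 ≤ i → 1 ≤ j → i + j = m → c i j = (-1) ^ j * φ i - (-1) ^ i * φ j)
    (h1 : ∀ i j, 1 ≤ i → 1 ≤ j → i + j = m + 1 →
      m * c i j = (-1) ^ j * i * φ i - (-1) ^ i * j * φ j)
    (h2 : ∀ i j, 1 ≤ i → 1 ≤ j → i + j = m + 2 → (m + 1) * m * c i j =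
      (-1) ^ j * (i * (i - 1)) * φ i - (-1) ^ i * (j * (j - 1)) * φ j)
    (f1 : φ 1 = 0) (fn : φ (m + 1) = 0) : φ 2 = 0 := by
  obtain ⟨ψ, hψ⟩ : ∃ ψ : ℕ → K, ∀ j, ψ j = (j + 1) * φ (j + 1) - (j + m) * φ j := ⟨_, fun _ => rfl⟩
  have p0 : ∀ i j, 1 ≤ i → 1 ≤ j → i + j = m → (-1) ^ j * ψ i = (-1) ^ i * ψ j := by
    intro i j hi hj e
    have e0 := hP i j hi hj
    have e1 := h0 i j hi hj e
    have e2 := h1 (i + 1) j (by omega) hj (by omega)
    have e3 := h1 i (j + 1) hi (by omega) (by omega)
    rw [hψ, hψ]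
    push_cast at e2 e3
    rw [pow_succ] at e2 e3
    linear_combination -(m : K) * e0 + (m : K) * e1 - e2 - e3
  have p1 : ∀ i j, 1 ≤ i → 1 ≤ j → i + j = m + 1 → (-1) ^ j * i * ψ i = (-1) ^ i * j * ψ j := by
    intro i j hi hj e
    have e0 := hP i j hi hj
    have e1 := h1 i j hi hj e
    have e2 := h2 (i + 1) j (by omega) hj (by omega)
    have e3 := h2 i (j + 1) hi (by omega) (by omega)
    rw [hψ, hψ]
    push_cast at e2 e3
    rw [pow_succ] at e2 e3
    linear_combination -((m : K) + 1) * m * e0 + ((m : K) + 1) * e1 - e2 - e3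
  have p2 : ∀ i j, 1 ≤ i → 1 ≤ j → i + j = m → ((j : K) + 1) * ψ (j + 1) = -(i : K) * ψ j := by
    intro i j hi hj e
    have e0 := p0 i j hi hj e
    have e1 := p1 i (j + 1) hi (by omega) (by omega)
    push_cast at e1
    rw [pow_succ] at e1
    refine mul_left_cancel₀ (sg_ne (K := K) i) ?_
    linear_combination -e1 - (i : K) * e0
  have hne : ∀ j : ℕ, (j : K) + 1 ≠ 0 := fun j => by exact_mod_cast Nat.succ_ne_zero j
  have ch : ∀ i j : ℕ, i + j = m → (m.choose (j + 1) : K) * (j + 1) = m.choose j * i := by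
    intro i j e
    have := Nat.choose_succ_right_eq m j
    rw [show m - j = i by omega] at this
    exact_mod_cast this
  have p3 : ∀ j, 1 ≤ j → j ≤ m → m * ψ j = -(-1) ^ j * (m.choose j : K) * (2 * φ 2) := by
    intro j hj
    induction j, hj using Nat.le_induction with
    | base =>
      intro _
      rw [hψ, f1]
      simp only [Nat.choose_one_right, Nat.cast_one]
      ring
    | succ j hj ih =>
      intro hjm
      obtain ⟨i, hi⟩ : ∃ i, i + j = m := ⟨m - j, by omega⟩
      have e0 := p2 i j (by omega) hj hi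
      have e1 := ih (by omega)
      have e2 := ch i j hi
      refine mul_left_cancel₀ (hne j) ?_
      rw [pow_succ]
      linear_combination (m : K) * e0 - (i : K) * e1 - (-1) ^ j * (2 * φ 2) * e2
  have p4 : ∀ j, j ≤ m → (m : K) ^ 2 * φ (j + 1) =
      φ 2 * (((m + j).choose (j + 1) : K) - (-1) ^ j * (m.choose (j + 1) : K)) := by
    intro j
    induction j with
    | zero =>
      intro _
      simp [f1]
    | succ j ih =>
      intro hjm
      obtain ⟨i, hi⟩ : ∃ i, i + (j + 1) = m := ⟨m - (j + 1), by omega⟩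
      have e0 := hψ (j + 1)
      have e1 := ih (by omega)
      have e2 := ch i (j + 1) hi
      have e3 := p3 (j + 1) (by omega) hjm
      have e4 : ((m : K) + j + 1) * ((m + j).choose (j + 1) : K) =
          ((m + (j + 1)).choose (j + 1 + 1) : K) * (j + 1 + 1) := by
        exact_mod_cast Nat.add_one_mul_choose_eq (m + j) (j + 1)
      have e5 : (i : K) + (j + 1) = m := by exact_mod_cast hi
      push_cast at e0 e2
      refine mul_left_cancel₀ (hne (j + 1)) ?_
      rw [pow_succ] at e3 ⊢
      push_cast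
      linear_combination -(m : K) ^ 2 * e0 + ((j : K) + 1 + m) * e1 + (m : K) * e3 + φ 2 * e4 -
        φ 2 * (-1) ^ j * e2 - φ 2 * (-1) ^ j * (m.choose (j + 1) : K) * e5
  have e := p4 m le_rfl
  rw [fn, Nat.choose_succ_self, Nat.cast_zero, mul_zero, mul_zero, sub_zero] at e
  refine (mul_eq_zero.1 e.symm).resolve_right ?_
  exact_mod_cast (Nat.choose_pos (by omega)).ne'

end Ic

open Ic in
theorem betIc : BetIc := by
  intro K _ _ a c s r p e m h hm hZ c12 c23 hr
  by_contra hs
  obtain ⟨q, rfl⟩ : ∃ q, m = q + 3 := ⟨m - 3, by omega⟩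
  obtain ⟨C, hC⟩ : ∃ C, C = -s 1 (q + 3) := ⟨_, rfl⟩
  have C0 : C ≠ 0 := hC ▸ neg_ne_zero.2 hs
  have za : ∀ i j, 1 ≤ i → 1 ≤ j → i + j ≤ q + 3 → a i j = 0 := fun i j hi hj l =>
    (hZ i j hi hj l).1
  have zs : ∀ i j, 1 ≤ i → 1 ≤ j → i + j ≤ q + 3 → s i j = 0 := fun i j hi hj l =>
    (hZ i j hi hj l).2.1
  have zr : ∀ i j, 1 ≤ i → 1 ≤ j → i + j ≤ q + 3 → r i j = 0 := fun i j hi hj l =>
    (hZ i j hi hj l).2.2.1
  have zp : ∀ i j, 1 ≤ i → 1 ≤ j → i + j ≤ q + 3 → p i j = 0 := fun i j hi hj l =>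
    (hZ i j hi hj l).2.2.2.1
  have ze : ∀ i j, 1 ≤ i → 1 ≤ j → i + j ≤ q + 3 → e i j = 0 := fun i j hi hj l =>
    (hZ i j hi hj l).2.2.2.2
  -- level `q + 4`
  have s0 : Lv s (q + 4) 0 C := hC ▸ lv_zero h.Ps fun i j hi hj l => zs i j hi hj l.le
  have r0 : Zr r (q + 4) :=
    zr_succ h.Pr (fun i j hi hj l => zr i j hi hj l.le) le_rfl (by omega) (by omega) hr
  have a0 : Lv a (q + 4) 0 (-a 1 (q + 3)) := lv_zero h.Pa fun i j hi hj l => za i j hi hj l.le
  have a12 := za 1 2 le_rfl (by omega) (by omega)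
  have s12 := zs 1 2 le_rfl (by omega) (by omega)
  have r12 := zr 1 2 le_rfl (by omega) (by omega)
  have s21 := zs 2 1 (by omega) le_rfl (by omega)
  have r21 := zr 2 1 (by omega) le_rfl (by omega)
  have p0 : Zr p (q + 4) := by
    have t := h.ffhF 1 2 (q + 1) le_rfl (by omega) (by omega)
    rw [zs 2 (q + 1) (by omega) (by omega) (by omega), zr 2 (q + 1) (by omega) (by omega) (by omega),
      zs 1 (q + 1) (by omega) (by omega) (by omega), zr 1 (q + 1) (by omega) (by omega) (by omega),
      a12] at t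
    refine zr_succ h.Pp (fun i j hi hj l => zp i j hi hj l.le) (i := 1 + 2) (j := q + 1) (by omega)
      (by omega) (by omega) (mul_left_cancel₀ c12 ?_)
    linear_combination -t
  have e0 : Zr e (q + 4) := by
    have t := h.ffhH 1 2 (q + 1) le_rfl (by omega) (by omega)
    rw [zs 2 (q + 1) (by omega) (by omega) (by omega), zr 2 (q + 1) (by omega) (by omega) (by omega),
      zs 1 (q + 1) (by omega) (by omega) (by omega), zr 1 (q + 1) (by omega) (by omega) (by omega),
      a12] at t
    refine zr_succ h.Pe (fun i j hi hj l => ze i j hi hj l.le) (i := 1 + 2) (j := q + 1) (by omega)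
      (by omega) (by omega) (mul_left_cancel₀ c12 ?_)
    linear_combination -t
  have s2 : s 2 (q + 2) = C := by
    rw [s0 2 (q + 1) (by omega) (by omega)]
    simp
  have r2 : r 2 (q + 2) = 0 := r0 2 (q + 2) (by omega) (by omega) (by omega)
  have s1 : s 1 (q + 3) = -C := by rw [hC, neg_neg]
  -- level `q + 5`
  have sn : s (q + 4) 1 = 0 := by
    have t := h.fhhF 2 (q + 2) 1 (by omega) (by omega) le_rfl
    rw [zp (q + 2) 1 (by omega) (by omega) (by omega), ze (q + 2) 1 (by omega) (by omega) (by omega),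
      s2, r2, s21, r21, show 2 + (q + 2) = q + 4 by omega] at t
    refine mul_left_cancel₀ C0 ?_
    linear_combination -t
  have rn : r (q + 4) 1 = 0 := by
    have t := h.fhhH 2 (q + 2) 1 (by omega) (by omega) le_rfl
    rw [zp (q + 2) 1 (by omega) (by omega) (by omega), ze (q + 2) 1 (by omega) (by omega) (by omega),
      s2, r2, s21, r21, show 2 + (q + 2) = q + 4 by omega] at t
    refine mul_left_cancel₀ C0 ?_
    linear_combination -t
  have s5 : Lv s (q + 5) 1 C := lv_succ h.Ps s0 sn
  have r5 : Zr r (q + 5) := zr_succ h.Pr r0 (by omega) le_rfl rfl rn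
  have ta : C * a 1 (q + 4) = c 1 2 * p 3 (q + 2) := by
    have t := h.ffhF 1 2 (q + 2) le_rfl (by omega) (by omega)
    rw [s2, r2, zs 1 (q + 2) (by omega) (by omega) (by omega),
      zr 1 (q + 2) (by omega) (by omega) (by omega), a12, show 2 + (q + 2) = q + 4 by omega] at t
    linear_combination t
  have tc : C * c 1 (q + 4) = c 1 2 * e 3 (q + 2) := by
    have t := h.ffhH 1 2 (q + 2) le_rfl (by omega) (by omega)
    rw [s2, r2, zs 1 (q + 2) (by omega) (by omega) (by omega),
      zr 1 (q + 2) (by omega) (by omega) (by omega), a12, show 2 + (q + 2) = q + 4 by omega] at t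
    linear_combination t
  have two : (2 : K) ≠ 0 := two_ne_zero
  have c11 : c 1 1 = 0 := mul_left_cancel₀ two (by linear_combination h.Ac 1 1 le_rfl le_rfl)
  rcases Nat.eq_zero_or_pos q with rfl | hq
  · -- the case of level four
    simp only [zero_add] at *
    have s31 : s 3 1 = -C := by
      rw [s0 3 0 (by omega) (by omega)]
      norm_num
    have s32 : s 3 2 = -C := by
      rw [s5 3 1 (by omega) (by omega)]
      norm_num
    have r31 := r0 3 1 (by omega) (by omega) rfl
    have r32 := r5 3 2 (by omega) (by omega) rfl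
    have p12 := zp 1 2 le_rfl (by omega) (by omega)
    have e12 := ze 1 2 le_rfl (by omega) (by omega)
    have t1 := h.fhhF 3 1 2 (by omega) le_rfl (by omega)
    have t2 := h.fhhH 3 1 2 (by omega) le_rfl (by omega)
    rw [p12, e12, s31, s32, r31, r32] at t1 t2
    have t3 := h.Ps 4 1 (by omega) le_rfl
    have t4 := h.Pr 4 1 (by omega) le_rfl
    rw [sn] at t3
    rw [rn] at t4
    norm_num at t1 t2 t3 t4
    have s51 : s 5 1 = 0 :=
      mul_left_cancel₀ (mul_ne_zero two C0) (by linear_combination -t1 - C * t3)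
    have s6 : Lv s 6 2 C := lv_succ h.Ps s5 s51
    have s42 : s 4 2 = 0 := by linear_combination -t3 - s51
    have s15 : s 1 5 = -6 * C := by
      rw [s6 1 4 (by omega) (by omega)]
      norm_num [Nat.choose]
    have s24 : s 2 4 = 3 * C := by
      rw [s6 2 3 (by omega) (by omega)]
      norm_num [Nat.choose]
    have s33 : s 3 3 = -C := by
      rw [s6 3 2 (by omega) (by omega)]
      norm_num [Nat.choose]
    have t5 := h.fhhF 1 3 2 le_rfl (by omega) (by omega)
    rw [hr, s12, r12] at t5
    norm_num at t5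
    rw [s42, s15] at t5
    have a22 : a 2 2 = 0 :=
      mul_left_cancel₀ two (by linear_combination h.Aa 2 2 (by omega) (by omega))
    have c22 : c 2 2 = 0 :=
      mul_left_cancel₀ two (by linear_combination h.Ac 2 2 (by omega) (by omega))
    have t6 := h.Pa 1 2 le_rfl (by omega)
    have t7 := h.Pa 1 3 le_rfl (by omega)
    have t8 := h.Pc 1 2 le_rfl (by omega)
    have t9 := h.Pc 1 3 le_rfl (by omega)
    have t10 := h.fffF 1 2 3 le_rfl (by omega) (by omega)
    norm_num at t6 t7 t8 t9 t10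
    rw [s15, s24, s33, a12] at t10
    rw [a12, a22] at t6
    rw [c22] at t8
    have a13 : a 1 3 = 0 := by linear_combination -t6
    have a23 : a 2 3 = -a 1 4 := by linear_combination a13 - t7
    have c13 : c 1 3 = c 1 2 := by linear_combination -t8
    have c23' : c 2 3 = c 1 2 - c 1 4 := by linear_combination c13 - t9
    rw [a13, a23, c13, c23'] at t10
    have fin : 10 * C * C * c 1 2 = 0 := by
      linear_combination -C * t10 - c 1 2 * t5 - a 1 5 * ta + 6 * C * tc
    exact mul_ne_zero (mul_ne_zero (mul_ne_zero (by norm_num) C0) C0) c12 fin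
  · have pe : Zr p (q + 5) ∧ Zr e (q + 5) := by
      rcases (show q = 1 ∨ 2 ≤ q by omega) with rfl | hq2
      · exact ⟨zr_succ h.Pp p0 (i := 3) (j := 3) (by omega) (by omega) rfl
          (mul_left_cancel₀ two (by linear_combination h.Ap 3 3 (by omega) (by omega))),
          zr_succ h.Pe e0 (i := 3) (j := 3) (by omega) (by omega) rfl
          (mul_left_cancel₀ two (by linear_combination h.Ae 3 3 (by omega) (by omega)))⟩
      · have c23' := c23 (by omega)
        have t1 := h.ffhF 2 3 q (by omega) (by omega) hq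
        have t2 := h.ffhH 2 3 q (by omega) (by omega) hq
        rw [zs 3 q (by omega) hq (by omega), zr 3 q (by omega) hq (by omega),
          zs 2 q (by omega) hq (by omega), zr 2 q (by omega) hq (by omega),
          za 2 3 (by omega) (by omega) (by omega)] at t1 t2
        exact ⟨zr_succ h.Pp p0 (i := 2 + 3) (j := q) (by omega) hq (by omega)
          (mul_left_cancel₀ c23' (by linear_combination -t1)),
          zr_succ h.Pe e0 (i := 2 + 3) (j := q) (by omega) hq (by omega)
          (mul_left_cancel₀ c23' (by linear_combination -t2))⟩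
    rw [pe.1 3 (q + 2) (by omega) (by omega) (by omega), mul_zero] at ta
    rw [pe.2 3 (q + 2) (by omega) (by omega) (by omega), mul_zero] at tc
    have an : a 1 (q + 4) = 0 := (mul_eq_zero.1 ta).resolve_left C0
    have cn : c 1 (q + 4) = 0 := (mul_eq_zero.1 tc).resolve_left C0
    have an' : a (q + 4) 1 = 0 := by rw [h.Aa 1 (q + 4) le_rfl (by omega), an, neg_zero]
    have a5 := lv_succ h.Pa a0 an'
    have A0 : -a 1 (q + 3) = 0 := by
      have t := a5 1 (q + 3) le_rfl (by omega)
      rw [an, Nat.choose_one_right] at t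
      have k : ((q + 3 : ℕ) : K) ≠ 0 := Nat.cast_ne_zero.2 (by omega)
      refine mul_left_cancel₀ k ?_
      linear_combination t
    rw [A0] at a0 a5
    have za' : ∀ i j, 1 ≤ i → 1 ≤ j → i + j ≤ q + 5 → a i j = 0 := by
      intro i j hi hj l
      rcases (show i + j ≤ q + 3 ∨ i + j = q + 4 ∨ i + j = q + 5 by omega) with l | l | l
      exacts [za i j hi hj l, a0.zr i j hi hj l, a5.zr i j hi hj l]
    -- level `q + 6`
    have sn2 : s (q + 4) 2 = 0 := by
      have t := h.fhhF 1 (q + 3) 2 le_rfl (by omega) (by omega)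
      rw [pe.1 (q + 3) 2 (by omega) (by omega) rfl, pe.2 (q + 3) 2 (by omega) (by omega) rfl, s1, hr,
        s12, r12, show 1 + (q + 3) = q + 4 by omega] at t
      refine mul_left_cancel₀ C0 ?_
      linear_combination t
    have s6 : Lv s (q + 6) 2 C := by
      refine lv_succ h.Ps s5 ?_
      have t := h.Ps (q + 4) 1 (by omega) le_rfl
      rw [sn, show 1 + 1 = 2 from rfl, sn2] at t
      linear_combination -t
    have key : ∀ n t, n ≤ q + 6 → Lv s n t C → ∀ i j, 1 ≤ i → 1 ≤ j → i + j + 1 = n →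
        ((i + j - 1).choose t : K) * c i j =
          (-1) ^ j * (i.choose t : K) * c 1 i - (-1) ^ i * (j.choose t : K) * c 1 j := by
      intro n t hn hL i j hi hj l
      have u := h.fffF 1 i j le_rfl hi hj
      have u1 := hL 1 (i + j - 1) le_rfl (by omega)
      rw [show i + j - 1 + 1 = i + j by omega] at u1
      rw [za' i j hi hj (by omega), za' 1 j le_rfl hj (by omega), za' 1 i le_rfl hi (by omega), u1,
        add_comm 1 j, add_comm 1 i, hL i j hi l, hL j i hj (by omega)] at u
      refine mul_left_cancel₀ C0 ?_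
      linear_combination -u
    refine c12 (arith (c := c) (φ := c 1) (m := q + 3) (by omega) h.Pc ?_ ?_ ?_ c11 cn)
    · intro i j hi hj l
      have u := key _ _ (by omega) s0 i j hi hj (by omega)
      simpa using u
    · intro i j hi hj l
      have u := key _ _ (by omega) s5 i j hi hj (by omega)
      rw [show i + j - 1 = q + 3 by omega] at u
      simpa using u
    · intro i j hi hj l
      have u := key _ _ (by omega) s6 i j hi hj (by omega)
      rw [show i + j - 1 = q + 4 by omega, Nat.cast_choose_two, Nat.cast_choose_two,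
        Nat.cast_choose_two] at u
      push_cast at u ⊢
      linear_combination 2 * u

end Pool.Agent.P78.Beta
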