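import Pool.Agent.Lib.MP_78c6b1_al.Beta.Defs

/-! The spike in degree two: proof of `Bet0`. -/

namespace Pool.Agent.P78.Beta

namespace B0

variable {K : Type} [Field K]

/-- Pascal arrays. -/
def Pas (X : ℕ → ℕ → K) : Prop := ∀ i j, 1 ≤ i → 1 ≤ j → X i j = X (i + 1) j + X i (j + 1)
/-- Antisymmetric arrays. -/
def Ant (X : ℕ → ℕ → K) : Prop := ∀ i j, 1 ≤ i → 1 ≤ j → X j i = - X i j
/-- Vanishing on one level. -/
def Lv (X : ℕ → ℕ → K) (m : ℕ) : Prop := ∀ i j, 1 ≤ i → 1 ≤ j → i + j = m → X i j = 0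

lemma alt {X : ℕ → ℕ → K} (hP : Pas X) {m : ℕ} (h0 : Lv X m) :
    ∀ i j, 1 ≤ i → 1 ≤ j → i + j = m + 1 → X i j = (-1) ^ i * (- X 1 m) := by
  intro i
  induction i with
  | zero => intro j h; omega
  | succ i ih =>
    intro j _ hj hs
    rcases Nat.eq_zero_or_pos i with rfl | hi
    · obtain rfl : j = m := by omega
      simp
    · have h1 := hP i j hi hj
      rw [h0 i j hi hj (by omega), ih (j + 1) hi (by omega) (by omega)] at h1
      rw [pow_succ]; linear_combination -h1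

lemma lv_entry {X : ℕ → ℕ → K} (hP : Pas X) {m : ℕ} (h0 : Lv X m) (i j : ℕ) (hi : 1 ≤ i)
    (hj : 1 ≤ j) (hs : i + j = m + 1) (h : X i j = 0) : Lv X (m + 1) := by
  have h1 := alt hP h0 i j hi hj hs
  rw [h] at h1
  have h2 : X 1 m = 0 := by
    have h3 : ((-1 : K)) ^ i ≠ 0 := pow_ne_zero _ (by simp)
    simpa [h3] using h1.symm
  intro i' j' hi' hj' hs'
  rw [alt hP h0 i' j' hi' hj' hs', h2]; simp

lemma diag [CharZero K] {X : ℕ → ℕ → K} (hA : Ant X) (i : ℕ) (hi : 1 ≤ i) : X i i = 0 := by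
  have h := hA i i hi hi
  linear_combination (1 / 2 : K) * h

lemma lv_even [CharZero K] {X : ℕ → ℕ → K} (hP : Pas X) (hA : Ant X) {m : ℕ} (h0 : Lv X m)
    (t : ℕ) (ht : 1 ≤ t) (hm : t + t = m + 1) : Lv X (m + 1) :=
  lv_entry hP h0 t t ht ht hm (diag hA t ht)

lemma alt2 {X : ℕ → ℕ → K} (hP : Pas X) {n : ℕ} {k : K}
    (h1 : ∀ i j, 1 ≤ i → 1 ≤ j → i + j = n → X i j = (-1) ^ i * k) :
    ∀ i j, 1 ≤ i → 1 ≤ j → i + j = n + 1 → X i j = (-1) ^ i * (k - X 1 n - i * k) := by
  intro i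
  induction i with
  | zero => intro j h; omega
  | succ i ih =>
    intro j _ hj hs
    rcases Nat.eq_zero_or_pos i with rfl | hi
    · obtain rfl : j = n := by omega
      simp
    · have h2 := hP i j hi hj
      rw [h1 i j hi hj (by omega), ih (j + 1) hi (by omega) (by omega)] at h2
      rw [pow_succ]; push_cast; linear_combination -h2

lemma first_row [CharZero K] {X : ℕ → ℕ → K} (hP : Pas X) (hA : Ant X) {n : ℕ} {k : K}
    (h1 : ∀ i j, 1 ≤ i → 1 ≤ j → i + j = n → X i j = (-1) ^ i * k) (t : ℕ)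
    (hn : n = t + t + 1) : X 1 n = - (t * k) := by
  have h2 := alt2 hP h1 (t + 1) (t + 1) (by omega) (by omega) (by omega)
  rw [diag hA (t + 1) (by omega)] at h2
  have h3 : ((-1 : K)) ^ (t + 1) ≠ 0 := pow_ne_zero _ (by simp)
  have h4 := (mul_eq_zero.mp h2.symm).resolve_left h3
  push_cast at h4
  linear_combination -h4

/-- The regular part of the action. -/
def reg (x : K) (i j : ℕ) : K := if j = 1 then -((i : K) - 1) * x else if j = 2 then x else 0

lemma reg_one (x : K) (i : ℕ) : reg x i 1 = -((i : K) - 1) * x := by simp [reg]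
lemma reg_two (x : K) (i : ℕ) : reg x i 2 = x := by simp [reg]
lemma reg_big (x : K) (i j : ℕ) (hj : 3 ≤ j) : reg x i j = 0 := by
  rw [reg, if_neg (by omega), if_neg (by omega)]

lemma pas_reg (x : K) : Pas (reg x) := by
  intro i j _ hj
  rcases (by omega : j = 1 ∨ j = 2 ∨ 3 ≤ j) with rfl | rfl | h
  · rw [reg_one, reg_one, reg_two]; push_cast; ring
  · rw [reg_two, reg_two, reg_big x i (2 + 1) (by omega)]; ring
  · rw [reg_big x _ _ h, reg_big x _ _ h, reg_big x i (j + 1) (by omega)]; ring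

/-- The deviation from the regular part. -/
def dev (r : ℕ → ℕ → K) (i j : ℕ) : K := r i j - reg (r 1 2) i j

lemma pas_dev {r : ℕ → ℕ → K} (h : Pas r) : Pas (dev r) := by
  intro i j hi hj
  have h1 := h i j hi hj
  have h2 := pas_reg (r 1 2) i j hi hj
  simp only [dev]
  linear_combination h1 - h2

lemma r_eq (r : ℕ → ℕ → K) (i j : ℕ) : r i j = dev r i j + reg (r 1 2) i j := by simp [dev]

/-- The invariant on one level. -/
structure Good (a s r p e : ℕ → ℕ → K) (l : ℕ) : Prop where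
  ha : Lv a l
  hs : Lv s l
  hr : Lv (dev r) l
  hp : Lv p l
  he : Lv e l

/-- The finite computation on level six. -/
lemma fin6 [CharZero K] {x A F E g C B : K} (hx : x ≠ 0) (h1 : F * C = 2 * E * F)
    (h2 : F * (B + 4 * x) = 2 * E ^ 2) (h3 : -2 * A * F = E * C) (h4 : 2 * g * F = E * B)
    (h5 : 3 * x * C = A * C + 2 * g * F) (h6 : 3 * x * B = A * (B + 4 * x) + 2 * g * E) :
    F = 0 ∧ E = 0 := by
  have hF : F = 0 := by
    by_contra hF
    have hC : C = 2 * E := mul_left_cancel₀ hF (by linear_combination h1)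
    have hB : B = -2 * A - 4 * x := mul_left_cancel₀ hF (by
      linear_combination h2 - h3 - E * hC)
    have hE : E = 0 := mul_left_cancel₀ hx (by
      linear_combination (1 / 10 : K) * h5 + (1 / 10 : K) * h4 + (1 / 10 : K) * E * hB -
        (1 / 10 : K) * (3 * x - A) * hC)
    have hA : A = 0 := mul_left_cancel₀ hF (by
      linear_combination (-1 / 2 : K) * h3 + (-1 / 2 : K) * C * hE)
    have hx2 : x * x = x * 0 := by
      linear_combination (-1 / 12 : K) * h6 + (1 / 4 : K) * x * hB -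
        (1 / 12 : K) * (B + 4 * x) * hA - (1 / 6 : K) * g * hE - (1 / 2 : K) * x * hA
    exact hx (mul_left_cancel₀ hx hx2)
  refine ⟨hF, ?_⟩
  have : E ^ 2 = 0 := by linear_combination (-1 / 2 : K) * h2 + (1 / 2 : K) * (B + 4 * x) * hF
  exact pow_eq_zero_iff (two_ne_zero) |>.mp this

section step

variable [CharZero K] {a c s r p e : ℕ → ℕ → K}

omit [CharZero K] in
lemma Good.r_eq {l : ℕ} (g : Good a s r p e l) (i j : ℕ) (hi : 1 ≤ i) (hj : 1 ≤ j)
    (hs : i + j = l) : r i j = reg (r 1 2) i j := by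
  rw [B0.r_eq r i j, g.hr i j hi hj hs, zero_add]

/-- The deviation of the mixed bracket vanishes. -/
lemma y_zero (h : Six a c s r p e) (hx : r 1 2 ≠ 0) (q : ℕ) (g2 : Good a s r p e 2)
    (g : Good a s r p e (q + 3)) (h1 : c 1 (q + 2) * p (q + 3) 1 = 0)
    (h2 : c 1 (q + 2) * e (q + 3) 1 = 0) : Lv s (q + 4) ∧ Lv (dev r) (q + 4) := by
  have hq : ((q : K) + 1) * r 1 2 ≠ 0 := mul_ne_zero (Nat.cast_add_one_ne_zero q) hx
  have F := h.ffhF 1 (q + 2) 1 le_rfl (by omega) le_rfl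
  have H := h.ffhH 1 (q + 2) 1 le_rfl (by omega) le_rfl
  rw [show 1 + (q + 2) = q + 3 by omega, show q + 2 + 1 = q + 3 by omega,
    g.hs (q + 2) 1 (by omega) le_rfl rfl, g.r_eq (q + 2) 1 (by omega) le_rfl rfl,
    g2.hs 1 1 le_rfl le_rfl rfl, g2.r_eq 1 1 le_rfl le_rfl rfl,
    g.ha 1 (q + 2) le_rfl (by omega) (by omega), reg_one, reg_one] at F H
  rw [h1] at F
  rw [h2, B0.r_eq r 1 (q + 3), reg_big _ 1 (q + 3) (by omega)] at H
  push_cast at F H
  exact ⟨lv_entry h.Ps g.hs 1 (q + 3) le_rfl (by omega) (by omega)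
      (mul_left_cancel₀ hq (by linear_combination -F)),
    lv_entry (pas_dev h.Pr) g.hr 1 (q + 3) le_rfl (by omega) (by omega)
      (mul_left_cancel₀ hq (by linear_combination -H))⟩

omit [CharZero K] in
/-- The bracket of the lane `h` with itself vanishes from level six on. -/
lemma eta_big (h : Six a c s r p e) (hx : r 1 2 ≠ 0) (q : ℕ) (hq : 2 ≤ q)
    (g3 : Good a s r p e 3) (g' : Good a s r p e (q + 2)) (g : Good a s r p e (q + 3)) :
    Lv p (q + 4) ∧ Lv e (q + 4) := by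
  have F := h.fhhF 1 2 (q + 1) le_rfl (by omega) (by omega)
  have H := h.fhhH 1 2 (q + 1) le_rfl (by omega) (by omega)
  rw [g.hp 2 (q + 1) (by omega) (by omega) (by omega),
    g.he 2 (q + 1) (by omega) (by omega) (by omega), g3.hs 1 2 le_rfl (by omega) rfl,
    g'.hs 1 (q + 1) le_rfl (by omega) (by omega), g'.r_eq 1 (q + 1) le_rfl (by omega) (by omega),
    reg_big _ 1 (q + 1) (by omega), show 1 + 2 = 3 from rfl] at F H
  exact ⟨lv_entry h.Pp g.hp 3 (q + 1) (by omega) (by omega) (by omega)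
      (mul_left_cancel₀ hx (by linear_combination -F)),
    lv_entry h.Pe g.he 3 (q + 1) (by omega) (by omega) (by omega)
      (mul_left_cancel₀ hx (by linear_combination -H))⟩

/-- The bracket of the lane `h` with itself vanishes on level five. -/
lemma eta_five (h : Six a c s r p e) (hx : r 1 2 ≠ 0) (hc : c 1 2 = 0) (hc3 : c 1 3 = 0)
    (g2 : Good a s r p e 2) (g3 : Good a s r p e 3) (g4 : Good a s r p e 4) (hs : Lv s 5)
    (hr : Lv (dev r) 5) : Lv p 5 ∧ Lv e 5 := by
  have five : ∀ X : ℕ → ℕ → K, Pas X → Ant X → X 1 3 = 0 →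
      X 1 4 = - X 2 3 ∧ X 1 5 = -2 * X 2 3 := fun X hP hA h13 => by
    have e1 := hP 1 3 (by omega) (by omega)
    have e2 := hP 1 4 (by omega) (by omega)
    have e3 := hP 2 3 (by omega) (by omega)
    have e4 := diag hA 3 (by omega)
    simp only [Nat.reduceAdd] at e1 e2 e3
    exact ⟨by linear_combination h13 - e1, by linear_combination h13 - e1 - e2 + e3 + e4⟩
  have a13 := g4.ha 1 3 (by omega) (by omega) rfl
  have p13 := g4.hp 1 3 (by omega) (by omega) rfl
  have e13 := g4.he 1 3 (by omega) (by omega) rfl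
  have s13 := g4.hs 1 3 (by omega) (by omega) rfl
  have r13 : r 1 3 = 0 := by rw [g4.r_eq 1 3 (by omega) (by omega) rfl, reg_big _ _ _ le_rfl]
  obtain ⟨a14, a15⟩ := five a h.Pa h.Aa a13
  obtain ⟨c14, c15⟩ := five c h.Pc h.Ac hc3
  obtain ⟨-, p15⟩ := five p h.Pp h.Ap p13
  obtain ⟨-, e15⟩ := five e h.Pe h.Ae e13
  have p51 := h.Ap 1 5 (by omega) (by omega)
  have e51 := h.Ae 1 5 (by omega) (by omega)
  have s51 := alt h.Ps hs 5 1 (by omega) (by omega) rfl
  have r51 := alt (pas_dev h.Pr) hr 5 1 (by omega) (by omega) rfl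
  have r41 := hr 4 1 (by omega) (by omega) rfl
  simp only [dev, reg_one, reg_big _ 1 5 (by omega)] at r51 r41
  push_cast at r51 r41
  have s41 := hs 4 1 (by omega) (by omega) rfl
  have s11 := g2.hs 1 1 le_rfl le_rfl rfl
  have r11 : r 1 1 = 0 := by rw [g2.r_eq 1 1 le_rfl le_rfl rfl, reg_one]; simp
  have s12 := g3.hs 1 2 (by omega) (by omega) rfl
  have p12 := g3.hp 1 2 (by omega) (by omega) rfl
  have e12 := g3.he 1 2 (by omega) (by omega) rfl
  have p33 := diag h.Ap 3 (by omega)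
  have e33 := diag h.Ae 3 (by omega)
  have s51' : s 5 1 = s 1 5 := by linear_combination s51
  have r51' : r 5 1 = r 1 5 - 4 * r 1 2 := by linear_combination r51
  have r41' : r 4 1 = -3 * r 1 2 := by linear_combination r41
  have j1 := h.hhhF 1 2 3 (by omega) (by omega) (by omega)
  have j2 := h.hhhH 1 2 3 (by omega) (by omega) (by omega)
  have j3 := h.fhhF 1 2 3 (by omega) (by omega) (by omega)
  have j4 := h.fhhH 1 2 3 (by omega) (by omega) (by omega)
  have j5 := h.ffhF 1 4 1 (by omega) (by omega) (by omega)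
  have j6 := h.ffhH 1 4 1 (by omega) (by omega) (by omega)
  simp only [Nat.reduceAdd, a14, a15, c14, c15, p51, e51, p15, e15, s51', r51', r41', s41, s11,
    r11, s12, p12, e12, p33, e33, p13, e13, s13, r13] at j1 j2 j3 j4 j5 j6
  obtain ⟨hF, hE⟩ := fin6 (x := r 1 2) (A := a 2 3) (F := p 2 3) (E := e 2 3) (g := - c 2 3)
    (C := - s 1 5) (B := - r 1 5) hx (by linear_combination j1) (by linear_combination j2)
    (by linear_combination j3) (by linear_combination j4) (by linear_combination j5)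
    (by linear_combination j6)
  exact ⟨lv_entry h.Pp g4.hp 2 3 (by omega) (by omega) rfl hF,
    lv_entry h.Pe g4.he 2 3 (by omega) (by omega) rfl hE⟩

/-- The component `a` vanishes on odd levels. -/
lemma a_zero (h : Six a c s r p e) (hx : r 1 2 ≠ 0) (t : ℕ) (g3 : Good a s r p e 3)
    (g : Good a s r p e (t + t + 4)) (hs : Lv s (t + t + 5)) (hr : Lv (dev r) (t + t + 5))
    (hp : Lv p (t + t + 5)) (he : Lv e (t + t + 5)) : Lv a (t + t + 5) := by
  have hp' := lv_even h.Pp h.Ap hp (t + 3) (by omega) (by omega)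
  have he' := lv_even h.Pe h.Ae he (t + 3) (by omega) (by omega)
  have n3 : ((-1 : K)) ^ (t + t + 3) = -1 := Odd.neg_one_pow ⟨t + 1, by omega⟩
  have n5 : ((-1 : K)) ^ (t + t + 5) = -1 := Odd.neg_one_pow ⟨t + 2, by omega⟩
  have aA := alt h.Pa g.ha
  have a1 := first_row h.Pa h.Aa aA (t + 2) (by omega)
  have a2 := aA 2 (t + t + 3) (by omega) (by omega) (by omega)
  have S := alt h.Ps hs
  have R := alt (pas_dev h.Pr) hr
  have F := h.ffhF 2 (t + t + 3) 1 (by omega) (by omega) le_rfl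
  have H := h.ffhH 2 (t + t + 3) 1 (by omega) (by omega) le_rfl
  rw [show 2 + (t + t + 3) = t + t + 5 by omega, show t + t + 3 + 1 = t + t + 4 by omega,
    show 2 + 1 = 3 from rfl, g.hs (t + t + 3) 1 (by omega) le_rfl rfl,
    g.r_eq (t + t + 3) 1 (by omega) le_rfl rfl, g3.hs 2 1 (by omega) le_rfl rfl,
    g3.r_eq 2 1 (by omega) le_rfl rfl, reg_one, reg_one, a2] at F H
  rw [hp' (t + t + 5) 1 (by omega) le_rfl rfl, S 2 (t + t + 4) (by omega) (by omega) (by omega),
    S (t + t + 3) 3 (by omega) (by omega) (by omega), S (t + t + 5) 1 (by omega) le_rfl rfl, n3,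
    n5] at F
  rw [he' (t + t + 5) 1 (by omega) le_rfl rfl, B0.r_eq r 2 (t + t + 4),
    B0.r_eq r (t + t + 3) 3, B0.r_eq r (t + t + 5) 1,
    R 2 (t + t + 4) (by omega) (by omega) (by omega),
    R (t + t + 3) 3 (by omega) (by omega) (by omega), R (t + t + 5) 1 (by omega) le_rfl rfl, n3,
    n5, reg_one, reg_big _ 2 (t + t + 4) (by omega), reg_big _ (t + t + 3) 3 le_rfl] at H
  push_cast at F H a1
  have c3 : ((t : K) + t + 3) ≠ 0 := by exact_mod_cast (by omega : t + t + 3 ≠ 0)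
  have c4 : ((t : K) + t + 4) ≠ 0 := by exact_mod_cast (by omega : t + t + 4 ≠ 0)
  have c2 : ((t : K) + 2) ≠ 0 := by exact_mod_cast (by omega : t + 2 ≠ 0)
  have hC : s 1 (t + t + 5) = 0 := by
    by_contra hC
    have hA : - a 1 (t + t + 4) = ((t : K) + t + 3) * r 1 2 :=
      mul_left_cancel₀ hC (by linear_combination -F)
    have : ((t : K) + t + 3) * r 1 2 * (((t : K) + t + 4) * r 1 2) = 0 := by
      rw [hA] at H
      linear_combination H
    exact mul_ne_zero (mul_ne_zero c3 hx) (mul_ne_zero c4 hx) this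
  have J := h.fffF 1 2 (t + t + 3) le_rfl (by omega) (by omega)
  rw [show 2 + (t + t + 3) = t + t + 5 by omega, show 1 + (t + t + 3) = t + t + 4 by omega,
    show 1 + 2 = 3 from rfl, a2, a1, hC, g.ha 1 (t + t + 3) le_rfl (by omega) (by omega),
    g3.ha 1 2 le_rfl (by omega) rfl, S 2 (t + t + 4) (by omega) (by omega) (by omega),
    S (t + t + 3) 3 (by omega) (by omega) (by omega), hC] at J
  have hA : a 1 (t + t + 4) ^ 2 = 0 := mul_left_cancel₀ c2 (by linear_combination -J)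
  exact lv_entry h.Pa g.ha 1 (t + t + 4) le_rfl (by omega) (by omega)
    (pow_eq_zero_iff two_ne_zero |>.mp hA)

lemma step (h : Six a c s r p e) (hx : r 1 2 ≠ 0) (hc : c 1 2 = 0) (q : ℕ)
    (G : ∀ l, l ≤ q + 3 → Good a s r p e l) : Good a s r p e (q + 4) := by
  have g := G (q + 3) le_rfl
  have g2 := G 2 (by omega)
  have g3 := G 3 (by omega)
  rcases Nat.even_or_odd' q with ⟨t, rfl | rfl⟩
  · have hp := lv_even h.Pp h.Ap g.hp (t + 2) (by omega) (by omega)
    have he := lv_even h.Pe h.Ae g.he (t + 2) (by omega) (by omega)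
    obtain ⟨hs, hr⟩ := y_zero h hx (2 * t) g2 g
      (by rw [hp _ 1 (by omega) le_rfl rfl, mul_zero])
      (by rw [he _ 1 (by omega) le_rfl rfl, mul_zero])
    exact ⟨lv_even h.Pa h.Aa g.ha (t + 2) (by omega) (by omega), hs, hr, hp, he⟩
  · have key : Lv s (2 * t + 1 + 4) ∧ Lv (dev r) (2 * t + 1 + 4) ∧ Lv p (2 * t + 1 + 4) ∧
        Lv e (2 * t + 1 + 4) := by
      rcases Nat.eq_zero_or_pos t with rfl | ht
      · have hc3 : c 1 3 = 0 := by
          have e1 := h.Pc 1 2 (by omega) (by omega)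
          have e2 := diag h.Ac 2 (by omega)
          simp only [Nat.reduceAdd] at e1
          linear_combination hc - e1 - e2
        obtain ⟨hs, hr⟩ := y_zero h hx 1 g2 g (by rw [hc3, zero_mul]) (by rw [hc3, zero_mul])
        obtain ⟨hp, he⟩ := eta_five h hx hc hc3 g2 g3 g hs hr
        exact ⟨hs, hr, hp, he⟩
      · obtain ⟨hp, he⟩ := eta_big h hx (2 * t + 1) (by omega) g3 (G _ (by omega)) g
        obtain ⟨hs, hr⟩ := y_zero h hx (2 * t + 1) g2 g
          (by rw [hp _ 1 (by omega) le_rfl rfl, mul_zero])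
          (by rw [he _ 1 (by omega) le_rfl rfl, mul_zero])
        exact ⟨hs, hr, hp, he⟩
    obtain ⟨hs, hr, hp, he⟩ := key
    refine ⟨?_, hs, hr, hp, he⟩
    rw [show 2 * t + 1 + 4 = t + t + 5 by omega] at hs hr hp he ⊢
    rw [show 2 * t + 1 + 3 = t + t + 4 by omega] at g
    exact a_zero h hx t g3 g hs hr hp he

lemma base (h : Six a c s r p e) (hl : Low a s p e) (h11 : r 1 1 = 0) (l : ℕ) (hl3 : l ≤ 3) :
    Good a s r p e l := by
  have g2 : Good a s r p e 2 := by
    refine ⟨?_, ?_, ?_, ?_, ?_⟩ <;> intro i j hi hj hs <;>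
      obtain ⟨rfl, rfl⟩ : i = 1 ∧ j = 1 := by omega
    · exact diag h.Aa 1 le_rfl
    · exact hl.s11
    · simp [dev, reg_one, h11]
    · exact diag h.Ap 1 le_rfl
    · exact diag h.Ae 1 le_rfl
  rcases (by omega : l ≤ 1 ∨ l = 2 ∨ l = 3) with h1 | rfl | rfl
  · refine ⟨?_, ?_, ?_, ?_, ?_⟩ <;> intro i j hi hj hs <;> omega
  · exact g2
  · exact ⟨lv_entry h.Pa g2.ha 1 2 le_rfl (by omega) rfl hl.a12,
      lv_entry h.Ps g2.hs 1 2 le_rfl (by omega) rfl hl.s12,
      lv_entry (pas_dev h.Pr) g2.hr 1 2 le_rfl (by omega) rfl (by simp [dev, reg_two]),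
      lv_entry h.Pp g2.hp 1 2 le_rfl (by omega) rfl hl.p12,
      lv_entry h.Pe g2.he 1 2 le_rfl (by omega) rfl hl.e12⟩

end step

end B0

/-- Spike in degree two: the lane `h` is an abelian ideal. -/
theorem bet0 : Bet0 := by
  intro K _ _ a c s r p e h hl h11 hx hc
  have all : ∀ q l, l ≤ q + 3 → B0.Good a s r p e l := by
    intro q
    induction q with
    | zero => exact fun l hl3 => B0.base h hl h11 l hl3
    | succ q ih =>
      intro l hl'
      rcases (by omega : l ≤ q + 3 ∨ l = q + 4) with h1 | rfl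
      · exact ih l h1
      · exact B0.step h hx hc q ih
  intro i j hi hj
  have g := all (i + j) (i + j) (by omega)
  exact ⟨g.hs i j hi hj rfl, g.hp i j hi hj rfl, g.he i j hi hj rfl⟩

end Pool.Agent.P78.Beta
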