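import Pool.Agent.Lib.MP_78c6b1_al.Beta.Red
import Pool.Agent.Lib.MP_78c6b1_al.Beta.H
import Pool.Agent.Lib.MP_78c6b1_al.Beta.E
import Pool.Agent.Lib.MP_78c6b1_al.Beta.Zero
import Pool.Agent.Lib.MP_78c6b1_al.Beta.Fin
import Pool.Agent.Lib.MP_78c6b1_al.Beta.Ic
import Pool.Agent.Lib.MP_78c6b1_al.Beta.Ib

/-! The head `3, 2, 2, …` does not occur. -/

namespace Pool.Agent.P78

theorem betaStmt : BetaStmt :=
  Beta.betaStmt_of Beta.betH Beta.betE Beta.bet0 Beta.betC Beta.betT Beta.betIc Beta.betIb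

end Pool.Agent.P78
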