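import Pool.Agent.Lib.MP_78c6b1_al.Beta.Defs

/-! Reduction of the head `3, 2, 2, …` to its normal forms. -/

namespace Pool.Agent.P78.Beta

variable {K : Type} [Field K]

/-- The hypotheses that are used. -/
structure Hyp (β : Bil K) : Prop where
  arr : A1 β
  nal : ∀ l, ¬ Lane β l
  bud : β 2 3 ≠ 0
  pla : ∀ c : (K × K) →ₗ[K] K, ∃ u v, β 1 2 u v ≠ c u • v

lemma Hyp.conj {β : Bil K} (h : Hyp β) (g : (K × K) ≃ₗ[K] (K × K)) : Hyp (conj g β) := by
  refine ⟨h.arr.conj g, fun l ⟨h0, q, hq⟩ => h.nal (g l) ⟨by simpa using h0, q, fun i j hi hj =>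
    ⟨fun u => ?_, ?_⟩⟩, fun h0 => h.bud ?_, fun c => ?_⟩
  · obtain ⟨t, ht⟩ := Submodule.mem_span_singleton.1 ((hq i j hi hj).1 (g.symm u))
    refine Submodule.mem_span_singleton.2 ⟨t, ?_⟩
    simpa using congrArg g ht
  · simpa using (hq i j hi hj).2
  · refine LinearMap.ext₂ fun u v => ?_
    simpa using LinearMap.congr_fun₂ h0 (g.symm u) (g.symm v)
  · obtain ⟨u, v, huv⟩ := h.pla (c ∘ₗ g.symm.toLinearMap)
    refine ⟨g.symm u, g.symm v, fun h1 => huv ?_⟩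
    simpa using congrArg g h1

/-- Subtracting multiples of `X` from the elements of degree one. -/
def shift (l : (K × K) →ₗ[K] K) (β : Bil K) : Bil K := fun i j =>
  β i j - (if i = 1 then (LinearMap.lsmul K (K × K)).comp l else 0) +
    (if j = 1 then ((LinearMap.lsmul K (K × K)).comp l).flip else 0)

lemma shift_apply (l : (K × K) →ₗ[K] K) (β : Bil K) (i j : ℕ) (u v : K × K) :
    shift l β i j u v = β i j u v - (if i = 1 then l u • v else 0) + if j = 1 then l v • u else 0 := by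
  unfold shift; split_ifs <;> simp

lemma Hyp.shift {β : Bil K} (h : Hyp β) (l : (K × K) →ₗ[K] K) : Hyp (shift l β) := by
  have D := fun i j u v hi hj => h.arr.der i j u v hi hj
  have N := fun i j u v hi hj => h.arr.anti i j u v hi hj
  refine ⟨⟨fun i j u v hi hj => ?_, fun i j u v hi hj => ?_, fun i j k u v w hi hj hk => ?_⟩,
    fun m ⟨h0, q, hq⟩ => h.nal m ⟨h0, q + 2, fun i j hi hj => ?_⟩, fun h0 => h.bud ?_, fun c => ?_⟩
  · simp only [shift_apply, D i j u v hi hj, show i + 1 ≠ 1 by omega, show j + 1 ≠ 1 by omega, if_false]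
    abel
  · simp only [shift_apply, N i j u v hi hj]
    abel
  · have J := h.arr.jac i j k u v w hi hj hk
    obtain ⟨δ, hδ, hd⟩ : ∃ δ : ℕ → K, (∀ i, i ≠ 1 → δ i = 0) ∧ ∀ i j u v,
        Beta.shift l β i j u v = β i j u v - (δ i * l u) • v + (δ j * l v) • u :=
      ⟨fun i => if i = 1 then 1 else 0, fun i hi => if_neg hi, fun i j u v => by
        rw [shift_apply]; by_cases a1 : i = 1 <;> by_cases a2 : j = 1 <;> simp [a1, a2]⟩
    have k1 : δ i • β j k v w = δ i • β (i + j) k v w + δ i • β j (i + k) v w := by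
      by_cases a1 : i = 1
      · rw [a1, D j k v w hj hk, smul_add, add_comm 1, add_comm 1]
      · simp [hδ i a1]
    have k2 : δ j • β i k u w = δ j • β (i + j) k u w + δ j • β i (j + k) u w := by
      by_cases a1 : j = 1
      · rw [a1, D i k u w hi hk, smul_add, add_comm 1]
      · simp [hδ j a1]
    have k3 : δ k • β i j u v = δ k • β i (j + k) u v - δ k • β j (i + k) v u := by
      by_cases a1 : k = 1
      · rw [a1, D i j u v hi hj, N (i + 1) j u v (by omega) hj]; module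
      · simp [hδ k a1]
    simp only [hd, hδ (i + j) (by omega), hδ (j + k) (by omega), hδ (i + k) (by omega), map_add,
      map_sub, map_smul, LinearMap.add_apply, LinearMap.sub_apply, LinearMap.smul_apply]
    linear_combination (norm := module) J + l u • k1 - l v • k2 + l w • k3
  · have := hq i j (by omega) (by omega)
    simpa only [shift_apply, show i ≠ 1 by omega, show j ≠ 1 by omega, if_false, sub_zero, add_zero]
      using this
  · refine LinearMap.ext₂ fun u v => ?_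
    simpa [shift_apply] using LinearMap.congr_fun₂ h0 u v
  · obtain ⟨u, v, huv⟩ := h.pla (c + l)
    refine ⟨u, v, fun h1 => huv ?_⟩
    simp only [shift_apply, if_true, show (2 : ℕ) ≠ 1 by omega, if_false, add_zero] at h1
    rw [LinearMap.add_apply, add_smul, ← h1]; abel

/-- The constants of levels two and three. -/
structure Hd (β : Bil K) (s1 r1 a2 c2 s2 r2 p2 e2 : K) : Prop where
  hyp : Hyp β
  s11 : s β 1 1 = s1
  r11 : r β 1 1 = r1
  a12 : a β 1 2 = a2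
  c12 : c β 1 2 = c2
  s12 : s β 1 2 = s2
  r12 : r β 1 2 = r2
  p12 : p β 1 2 = p2
  e12 : e β 1 2 = e2

variable {β : Bil K} {s1 r1 a2 c2 s2 r2 p2 e2 : K}

lemma Hd.shift (h : Hd β s1 r1 a2 c2 s2 r2 p2 e2) (x y : K) :
    ∃ β' : Bil K, Hd β' (s1 + y) (r1 - x) (a2 - x) c2 s2 (r2 - x) p2 (e2 - y) := by
  obtain ⟨H, rfl, rfl, rfl, rfl, rfl, rfl, rfl, rfl⟩ := h
  refine ⟨_, H.shift (x • LinearMap.fst K K K + y • LinearMap.snd K K K), ?_, ?_, ?_, ?_, ?_, ?_, ?_,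
    ?_⟩ <;> simp [a, c, s, r, p, e, shift_apply]

lemma Hd.swap (h : Hd β s1 r1 a2 c2 s2 r2 p2 e2) :
    ∃ β' : Bil K, Hd β' (-r1) (-s1) e2 p2 (r2 - r1) (s2 - s1) c2 a2 := by
  obtain ⟨H, rfl, rfl, rfl, rfl, rfl, rfl, rfl, rfl⟩ := h
  have h1 := H.arr.anti 1 1 (1, 0) (0, 1) le_rfl le_rfl
  have h2 := H.arr.anti 2 1 (1, 0) (0, 1) one_le_two le_rfl
  have h3 : β 2 1 (1, 0) (0, 1) = β 1 1 (1, 0) (0, 1) - β 1 2 (1, 0) (0, 1) :=
    eq_sub_of_add_eq (H.arr.der 1 1 (1, 0) (0, 1) le_rfl le_rfl).symm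
  refine ⟨_, H.conj (LinearEquiv.prodComm K K K), ?_, ?_, ?_, ?_, ?_, ?_, ?_, ?_⟩ <;>
    simp [a, c, s, r, p, e, h1, h2, h3]

lemma Hyp.shear (h : Hyp β) (t : K) : ∃ β' : Bil K, Hyp β' ∧ ∀ i j, 1 ≤ i → 1 ≤ j →
    a β' i j = a β i j + t * s β i j - t * s β j i + t ^ 2 * p β i j ∧
    c β' i j = c β i j + t * r β i j - t * r β j i + t ^ 2 * e β i j - t * a β' i j ∧
    s β' i j = s β i j + t * p β i j ∧ r β' i j = r β i j + t * e β i j - t * s β' i j ∧
    p β' i j = p β i j ∧ e β' i j = e β i j - t * p β i j := by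
  refine ⟨Beta.conj (shr t) β, h.conj _, fun i j hi hj => ?_⟩
  have h1 : shr t ((1, 0) : K × K) = (1, 0) + t • (0, 1) := by ext <;> simp [shr]
  have h2 : shr t ((0, 1) : K × K) = (0, 1) := by ext <;> simp [shr]
  have h3 : ∀ u : K × K, (shr t).symm u = (u.1, u.2 - t * u.1) := fun u => rfl
  simp only [a, c, s, r, p, e, conj_apply, h1, h2, h3, map_add, map_smul, LinearMap.add_apply,
    LinearMap.smul_apply, h.arr.anti j i (1, 0) (0, 1) hj hi, Prod.fst_add, Prod.snd_add,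
    Prod.smul_fst, Prod.smul_snd, Prod.fst_neg, Prod.snd_neg, smul_eq_mul]
  refine ⟨?_, ?_, ?_, ?_, ?_, ?_⟩ <;> first | trivial | ring

lemma Hd.shear [CharZero K] (h : Hd β s1 r1 a2 c2 s2 r2 p2 e2) (t : K) :
    ∃ β' : Bil K, Hd β' s1 (r1 - t * s1) (a2 + t * (2 * s2 - s1) + t ^ 2 * p2)
      (c2 + t * (2 * r2 - r1) + t ^ 2 * e2 - t * (a2 + t * (2 * s2 - s1) + t ^ 2 * p2))
      (s2 + t * p2) (r2 + t * e2 - t * (s2 + t * p2)) p2 (e2 - t * p2) := by
  obtain ⟨H, rfl, rfl, rfl, rfl, rfl, rfl, rfl, rfl⟩ := h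
  obtain ⟨β', H', h⟩ := H.shear t
  have S := six H.arr
  have h1 : p β 1 1 = 0 := by linear_combination S.Ap 1 1 le_rfl le_rfl / 2
  have h2 : e β 1 1 = 0 := by linear_combination S.Ae 1 1 le_rfl le_rfl / 2
  have h3 := S.Ps 1 1 le_rfl le_rfl
  have h4 := S.Pr 1 1 le_rfl le_rfl
  obtain ⟨-, -, b3, b4, -, -⟩ := h 1 1 le_rfl le_rfl
  obtain ⟨d1, d2, d3, d4, d5, d6⟩ := h 1 2 le_rfl one_le_two
  have d1' : a β' 1 2 = a β 1 2 + t * (2 * s β 1 2 - s β 1 1) + t ^ 2 * p β 1 2 := by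
    linear_combination d1 + t * h3
  have b3' : s β' 1 1 = s β 1 1 := by linear_combination b3 + t * h1
  exact ⟨β', H', b3', by rw [b4, b3', h2]; ring, d1', by rw [d2, d1']; linear_combination t * h4, d3,
    by rw [d4, d3], d5, d6⟩

lemma Hyp.not_flat (h : Hyp β) : ¬ Flat (s β) (p β) (e β) := fun F =>
  h.nal (0, 1) ⟨by simp, 1, fun i j hi hj => by
    obtain ⟨f1, f2, f3⟩ := F i j hi hj
    have h1 : β i j (0, 1) (0, 1) = 0 := Prod.ext f2 f3
    refine ⟨fun u => Submodule.mem_span_singleton.2 ⟨u.1 * r β i j, ?_⟩, h1⟩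
    rw [app_left _ u, h1]
    exact Prod.ext (by simpa [s] using Or.inr f1) (by simp [r])⟩

lemma Hyp.not_com (h : Hyp β) : ¬ Com (a β) (c β) (s β) (r β) (p β) (e β) :=
  fun ⟨f1, f2, f3, f4, f5, f6, f7, f8⟩ => h.bud (LinearMap.ext₂ fun u v => by
    have h1 : β 2 3 (1, 0) (1, 0) = 0 := Prod.ext f1 f2
    have h2 : β 2 3 (1, 0) (0, 1) = 0 := Prod.ext f3 f4
    have h3 : β 3 2 (1, 0) (0, 1) = 0 := Prod.ext f5 f6
    have h4 : β 2 3 (0, 1) (0, 1) = 0 := Prod.ext f7 f8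
    have h5 := h.arr.anti 3 2 (1, 0) (0, 1) (by omega) (by omega)
    rw [app_left _ u, app_right (β 2 3 (1, 0)), app_right (β 2 3 (0, 1)), h5]
    simp [h1, h2, h3, h4])

variable [CharZero K]

lemma nilp (hc : BetIc) (hb : BetIb) (m : ℕ) (hm : 3 ≤ m) : ∀ β : Bil K, Hyp β →
    Z (a β) (s β) (r β) (p β) (e β) 3 → c β 1 2 ≠ 0 → Z (a β) (s β) (r β) (p β) (e β) m := by
  induction m, hm using Nat.le_induction with
  | base => exact fun β _ h _ => h
  | succ m hm ih =>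
    intro β H h3 h0
    have h := ih β H h3 h0
    have S := six H.arr
    refine hb K _ _ _ _ _ _ m S hm h h0 (by_contra fun h1 => ?_)
    obtain ⟨k, rfl⟩ : ∃ k, m = k + 3 := ⟨m - 3, by omega⟩
    have z1 := h 2 (k + 1) (by omega) (by omega) (by omega)
    have z2 := h 1 (k + 1) (by omega) (by omega) (by omega)
    have z3 := h 1 2 (by omega) (by omega) (by omega)
    have z4 := h 1 (k + 2) (by omega) (by omega) (by omega)
    have p1 : p β 1 (k + 3) = 0 := by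
      have j := S.ffhF 1 2 (k + 1) (by omega) (by omega) (by omega)
      rw [z1.2.1, z1.2.2.1, z2.2.1, z2.2.2.1, z3.1] at j
      have j' : p β 3 (k + 1) = 0 := (mul_eq_zero.1 (by linear_combination -j)).resolve_left h0
      linear_combination j' - S.Pp 1 (k + 2) (by omega) (by omega) + z4.2.2.2.1 +
        S.Pp 2 (k + 1) (by omega) (by omega) - z1.2.2.2.1
    have e1 : e β 1 (k + 3) = 0 := by
      have j := S.ffhH 1 2 (k + 1) (by omega) (by omega) (by omega)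
      rw [z1.2.1, z1.2.2.1, z2.2.1, z2.2.2.1, z3.1] at j
      have j' : e β 3 (k + 1) = 0 := (mul_eq_zero.1 (by linear_combination -j)).resolve_left h0
      linear_combination j' - S.Pe 1 (k + 2) (by omega) (by omega) + z4.2.2.2.2 +
        S.Pe 2 (k + 1) (by omega) (by omega) - z1.2.2.2.2
    obtain ⟨β', H', g⟩ := H.shear (r β 1 (k + 3) / s β 1 (k + 3))
    have g1 : ∀ i j, 1 ≤ i → 1 ≤ j → i + j ≤ k + 3 → c β' i j = c β i j ∧ a β' i j = 0 ∧
        s β' i j = 0 ∧ r β' i j = 0 ∧ p β' i j = 0 ∧ e β' i j = 0 := fun i j hi hj hij => by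
      obtain ⟨b1, b2, b3, b4, b5, b6⟩ := g i j hi hj
      obtain ⟨d1, d2, d3, d4, d5⟩ := h i j hi hj hij
      obtain ⟨-, d6, d7, -, -⟩ := h j i hj hi (by omega)
      simp only [d1, d2, d3, d4, d5, d6, d7, mul_zero, add_zero, sub_zero, zero_sub] at *
      simp [b1, b2, b3, b4, b5, b6]
    obtain ⟨-, -, b3, b4, -, -⟩ := g 1 (k + 3) le_rfl (by omega)
    rw [p1, mul_zero, add_zero] at b3
    refine h1 (b3 ▸ hc K _ _ _ _ _ _ (k + 3) (six H'.arr) hm (fun i j hi hj hij =>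
      (g1 i j hi hj hij).2) (by rwa [(g1 1 2 le_rfl (by omega) (by omega)).1]) (fun h5 h6 => ?_) ?_)
    · obtain ⟨-, d1, d2, d3, d4, d5⟩ := g1 2 3 (by omega) (by omega) h5
      obtain ⟨-, -, d6, d7, -, -⟩ := g1 3 2 (by omega) (by omega) h5
      exact H'.not_com ⟨d1, h6, d2, d3, d6, d7, d4, d5⟩
    · rw [b4, e1, b3]; field_simp; ring

lemma low (hH : BetH) (hE : BetE) (h0 : Bet0) (hC : BetC) (hc : BetIc) (hb : BetIb)
    (h : Hd β 0 r1 0 c2 0 r2 0 0) : False := by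
  have L : ∀ {β : Bil K} {r1 c2 r2 : K}, Hd β 0 r1 0 c2 0 r2 0 0 → Low (a β) (s β) (p β) (e β) :=
    fun h => ⟨h.a12, h.s11, h.s12, h.p12, h.e12⟩
  have S := six h.hyp.arr
  have key : 2 * r2 - r1 ≠ 0 → ∃ β' : Bil K, Hd β' 0 r1 0 0 0 r2 0 0 := fun hn => by
    obtain ⟨β', h'⟩ := h.shear (-c2 / (2 * r2 - r1))
    refine ⟨β', ?_⟩
    convert h' using 1 <;> field_simp <;> ring
  by_cases a1 : r1 = 0 <;> by_cases a2 : r2 = 0
  · subst a1 a2
    have s21 : s β 2 1 = 0 := by linear_combination h.s11 - h.s12 - S.Ps 1 1 le_rfl le_rfl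
    have r21 : r β 2 1 = 0 := by linear_combination h.r11 - h.r12 - S.Pr 1 1 le_rfl le_rfl
    have hc2 : c β 1 2 ≠ 0 := fun hz => by
      obtain ⟨u, v, huv⟩ := h.hyp.pla 0
      have h1 : β 1 2 (1, 0) (1, 0) = 0 := Prod.ext h.a12 hz
      have h2 : β 1 2 (1, 0) (0, 1) = 0 := Prod.ext h.s12 h.r12
      have h3 : β 2 1 (1, 0) (0, 1) = 0 := Prod.ext s21 r21
      have h4 : β 1 2 (0, 1) (0, 1) = 0 := Prod.ext h.p12 h.e12
      have h5 := h.hyp.arr.anti 2 1 (1, 0) (0, 1) (by omega) (by omega)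
      apply huv
      rw [app_left _ u, app_right (β 1 2 (1, 0)), app_right (β 1 2 (0, 1)), h5]
      simp [h1, h2, h3, h4]
    have h3 : Z (a β) (s β) (r β) (p β) (e β) 3 := fun i j hi hj hij => by
      obtain ⟨rfl, rfl⟩ | ⟨rfl, rfl⟩ | ⟨rfl, rfl⟩ : i = 1 ∧ j = 1 ∨ i = 1 ∧ j = 2 ∨ i = 2 ∧ j = 1 := by
        omega
      · exact ⟨by linear_combination S.Aa 1 1 hi hi / 2, h.s11, h.r11,
          by linear_combination S.Ap 1 1 hi hi / 2, by linear_combination S.Ae 1 1 hi hi / 2⟩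
      · exact ⟨h.a12, h.s12, h.r12, h.p12, h.e12⟩
      · exact ⟨by linear_combination S.Aa 1 2 hj hi - h.a12, s21, r21,
          by linear_combination S.Ap 1 2 hj hi - h.p12, by linear_combination S.Ae 1 2 hj hi - h.e12⟩
    exact h.hyp.not_flat fun i j hi hj =>
      have := nilp hc hb (i + j + 3) (by omega) β h.hyp h3 hc2 i j hi hj (by omega)
      ⟨this.2.1, this.2.2.2⟩
  · obtain ⟨β', h'⟩ := key (by simpa [a1] using a2)
    exact h'.hyp.not_flat (h0 K _ _ _ _ _ _ (six h'.hyp.arr) (L h') (h'.r11.trans a1)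
      (h'.r12 ▸ a2) h'.c12)
  · exact h.hyp.not_flat (hE K _ _ _ _ _ _ S (L h) (h.r11 ▸ a1) (h.r12.trans a2))
  · by_cases a3 : r1 = r2
    · obtain ⟨β', h'⟩ := key (by rw [a3]; intro hz; exact a2 (by linear_combination hz))
      exact h'.hyp.not_com (hC K _ _ _ _ _ _ (six h'.hyp.arr) (L h') (h'.r11 ▸ a1)
        (by rw [h'.r11, h'.r12, a3]) h'.c12)
    · exact h.hyp.not_flat (hH K _ _ _ _ _ _ S (L h) (h.r11 ▸ a1) (h.r12 ▸ a2)
        (by rwa [h.r11, h.r12]))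

lemma quart (h : Hd β 0 0 a2 c2 s2 r2 p2 (-s2)) :
    p2 * (a2 - r2) = 2 * s2 ^ 2 ∧ p2 * c2 = s2 * r2 := by
  have S := six h.hyp.arr
  have o : (1 : ℕ) ≤ 1 := le_rfl
  have t : (1 : ℕ) ≤ 2 := one_le_two
  have j1 := S.fhhF 1 1 2 o o t
  have j2 := S.fhhH 1 1 2 o o t
  have a13 : a β 1 3 = a2 := by linear_combination h.a12 - S.Pa 1 2 o t - S.Aa 2 2 t t / 2
  have c13 : c β 1 3 = c2 := by linear_combination h.c12 - S.Pc 1 2 o t - S.Ac 2 2 t t / 2
  have p31 : p β 3 1 = -p2 := by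
    linear_combination S.Ap 1 2 o t - h.p12 - S.Pp 2 1 t o - S.Ap 2 2 t t / 2
  have e31 : e β 3 1 = s2 := by
    linear_combination S.Ae 1 2 o t - h.e12 - S.Pe 2 1 t o - S.Ae 2 2 t t / 2
  have s13 : s β 1 3 = s2 - s β 2 2 := by linear_combination h.s12 - S.Ps 1 2 o t
  have r13 : r β 1 3 = r2 - r β 2 2 := by linear_combination h.r12 - S.Pr 1 2 o t
  have s31 : s β 3 1 = -s2 - s β 2 2 := by
    linear_combination h.s11 - h.s12 - S.Ps 1 1 o o - S.Ps 2 1 t o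
  have r31 : r β 3 1 = -r2 - r β 2 2 := by
    linear_combination h.r11 - h.r12 - S.Pr 1 1 o o - S.Pr 2 1 t o
  norm_num only at j1 j2
  rw [h.s11, h.r11, h.s12, h.r12, h.p12, h.e12] at j1 j2
  rw [a13, s13, s31, p31] at j1
  rw [c13, r13, r31, e31] at j2
  exact ⟨by linear_combination j1, by linear_combination j2⟩

theorem betaStmt_of (hH : BetH) (hE : BetE) (h0 : Bet0) (hC : BetC) (hT : BetT) (hc : BetIc)
    (hb : BetIb) : BetaStmt := by
  intro K _ _ β A nal _ bud pla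
  have main : ∀ (β : Bil K) (a2 c2 s2 r2 p2 : K), Hd β 0 0 a2 c2 s2 r2 p2 (-s2) → False := by
    intro β a2 c2 s2 r2 p2 h
    by_cases hp : p2 = 0
    · have hs : s2 = 0 := by simpa [hp] using (quart h).1.symm
      obtain ⟨β', h'⟩ := h.shift a2 0
      simp only [hp, hs, add_zero, sub_self, neg_zero] at h'
      exact low hH hE h0 hC hc hb h'
    · obtain ⟨β₁, h₁⟩ := h.shear (-s2 / p2)
      obtain ⟨a3, c3, r3, h₂⟩ : ∃ a3 c3 r3, Hd β₁ 0 0 a3 c3 0 r3 p2 (-0) :=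
        ⟨_, _, _, by convert h₁ using 1 <;> field_simp <;> ring⟩
      obtain ⟨q1, q2⟩ := quart h₂
      have q3 : a3 = r3 := sub_eq_zero.1 ((mul_eq_zero.1 (by simpa using q1)).resolve_left hp)
      have q4 : c3 = 0 := (mul_eq_zero.1 (by simpa using q2)).resolve_left hp
      subst q3 q4
      by_cases ha : a3 = 0
      · obtain ⟨β', h'⟩ := h₂.swap
        simp only [ha, neg_zero, sub_zero] at h'
        exact low hH hE h0 hC hc hb h'
      · obtain ⟨β', h'⟩ := h₂.shift a3 0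
        simp only [add_zero, sub_self, neg_zero, zero_sub] at h'
        exact h'.hyp.not_com (hT K _ _ _ _ _ _ (six h'.hyp.arr) h'.a12 h'.c12 h'.s11 h'.s12
          (by rw [h'.r11]; simpa using ha) h'.r12 (h'.p12 ▸ hp) h'.e12)
  have H : Hyp β := ⟨A, nal, bud 2 3 le_rfl (by omega), pla 2 le_rfl⟩
  obtain ⟨β₁, h₁⟩ := (Hd.mk H rfl rfl rfl rfl rfl rfl rfl rfl).shift (r β 1 1) (-s β 1 1)
  simp only [add_neg_cancel, sub_self] at h₁
  obtain ⟨β₁, a2, c2, s2, r2, p2, e2, h₁⟩ : ∃ (β₁ : Bil K) (a2 c2 s2 r2 p2 e2 : K),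
      Hd β₁ 0 0 a2 c2 s2 r2 p2 e2 := ⟨_, _, _, _, _, _, _, h₁⟩
  by_cases ht : s2 + e2 = 0
  · exact main β₁ a2 c2 s2 r2 p2 (by rwa [eq_neg_of_add_eq_zero_right ht] at h₁)
  · obtain ⟨β₂, h₂⟩ := h₁.shear (-(a2 + r2) / (s2 + e2))
    obtain ⟨β₃, h₃⟩ := h₂.swap
    refine main β₃ _ _ _ _ _ (by convert h₃ using 1 <;> first | rfl | (field_simp; ring) | simp)

end Pool.Agent.P78.Beta
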